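import Pool.Agent.K7.H64.IX.Loc

/-! The congruences which make all the other positions near the four clusters composite. -/

set_option autoImplicit false

namespace Pool.Agent.K7.H64.IX

open Finset

theorem frame {R W l L l₀ c₀ : ℕ} (hW : ∀ p : ℕ, p.Prime → p ≤ 4 * R → p ∣ W)
    (hL : 24 * W * l * R ≤ L) (hl₀ : L ≤ l₀)
    (hex : ¬ Exc l₀ L (4 * (L + 1)) c₀) (e : Fin 4 → ℕ) (he4 : ∀ w, e w ≤ 4)
    (he3 : ∃ z : ℤ, ∀ w, ¬ (3 : ℤ) ∣ z + ((2 * e w * c₀ : ℕ) : ℤ)) :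
    ∃ Q r : ℕ, 1 ≤ Q ∧ Q ≤ ∏ k ∈ range (4 * (L + 1)), pl l₀ k ∧ r < Q ∧
      (∀ p : ℕ, p.Prime → ∃ n : ℤ, ∀ (w : Fin 4) (i : Fin R),
        ¬ (p : ℤ) ∣ Q * n + ((r + 2 * e w * c₀ + 24 * W * l * i : ℕ) : ℤ)) ∧
      ∀ (w : Fin 4) (y : ℕ), y ≤ L → (∀ i : Fin R, y ≠ 24 * W * l * i) →
        ∃ q : ℕ, q.Prime ∧ q ≤ ∏ k ∈ range (4 * (L + 1)), pl l₀ k ∧ q ∣ Q ∧ q ∣ r + 2 * e w * c₀ + y := by
  classical
  obtain ⟨E, hE⟩ : ∃ E : ℕ → ℕ, E = fun w => if h : w < 4 then e ⟨w, h⟩ else 0 := ⟨_, rfl⟩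
  obtain ⟨Y, hY⟩ : ∃ Y : Finset ℕ, Y = (range (4 * (L + 1))).filter
    (fun k => ∀ i : Fin R, k % (L + 1) ≠ 24 * W * l * i) := ⟨_, rfl⟩
  obtain ⟨P, hP⟩ : ∃ P : ℕ → ℕ, P = fun k => 2 * E (k / (L + 1)) * c₀ + k % (L + 1) := ⟨_, rfl⟩
  have hpos : ∀ k, 0 < pl l₀ k := fun k => (pl_prime l₀ k).pos
  have hcop : Set.Pairwise (↑Y : Set ℕ) (Function.onFun Nat.Coprime (pl l₀)) := by
    intro a _ b _ hab
    exact (Nat.coprime_primes (pl_prime _ _) (pl_prime _ _)).2 (fun h => hab (pl_inj l₀ h))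
  have hne : ∀ k ∈ Y, pl l₀ k ≠ 0 := fun k _ => (hpos k).ne'
  obtain ⟨r, hr, hrlt⟩ : ∃ r : ℕ, (∀ k ∈ Y, r ≡ pl l₀ k - P k % pl l₀ k [MOD pl l₀ k]) ∧
      r < ∏ k ∈ Y, pl l₀ k := by
    refine ⟨(Nat.chineseRemainderOfFinset (fun k => pl l₀ k - P k % pl l₀ k) (pl l₀) Y hne hcop : ℕ), ?_, ?_⟩
    · exact (Nat.chineseRemainderOfFinset (fun k => pl l₀ k - P k % pl l₀ k) (pl l₀) Y hne hcop).2
    · exact Nat.chineseRemainderOfFinset_lt_prod _ _ hne hcop
  have hdiv : ∀ k ∈ Y, pl l₀ k ∣ r + P k := by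
    intro k hk
    have h1 : r + P k ≡ (pl l₀ k - P k % pl l₀ k) + P k [MOD pl l₀ k] := Nat.ModEq.add_right _ (hr k hk)
    have h2 : pl l₀ k - P k % pl l₀ k + P k = pl l₀ k * (1 + P k / pl l₀ k) := by
      have h3 := Nat.mod_lt (P k) (hpos k)
      have h4 := Nat.div_add_mod (P k) (pl l₀ k)
      have h5 : pl l₀ k * (1 + P k / pl l₀ k) = pl l₀ k + pl l₀ k * (P k / pl l₀ k) := by ring
      omega
    rw [h2] at h1
    exact (Nat.modEq_zero_iff_dvd.1 (h1.trans (Nat.modEq_zero_iff_dvd.2 (Dvd.intro _ rfl))))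
  have hYsub : Y ⊆ range (4 * (L + 1)) := by rw [hY]; exact filter_subset _ _
  have hQ1 : 1 ≤ ∏ k ∈ Y, pl l₀ k := Nat.succ_le_of_lt (prod_pos fun k _ => hpos k)
  have hQ2 : ∏ k ∈ Y, pl l₀ k ≤ ∏ k ∈ range (4 * (L + 1)), pl l₀ k :=
    prod_le_prod_of_subset_of_one_le' hYsub fun k _ _ => hpos k
  -- positions
  have hkk : ∀ (w : Fin 4) (y : ℕ), y ≤ L → ((w : ℕ) * (L + 1) + y) / (L + 1) = w ∧
      ((w : ℕ) * (L + 1) + y) % (L + 1) = y ∧ (w : ℕ) * (L + 1) + y < 4 * (L + 1) := by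
    intro w y hy
    refine ⟨?_, ?_, ?_⟩
    · rw [mul_comm, Nat.mul_add_div (by omega), Nat.div_eq_of_lt (by omega)]
      simp
    · rw [mul_comm, Nat.mul_add_mod]
      exact Nat.mod_eq_of_lt (by omega)
    · have hw := w.2
      have : (w : ℕ) * (L + 1) ≤ 3 * (L + 1) := Nat.mul_le_mul_right _ (by omega)
      omega
  have hEw : ∀ w : Fin 4, E (w : ℕ) = e w := by
    intro w
    rw [hE]
    simp
  refine ⟨∏ k ∈ Y, pl l₀ k, r, hQ1, hQ2, hrlt, ?_, ?_⟩
  · -- admissibility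
    intro p hp
    by_cases hpQ : p ∣ ∏ k ∈ Y, pl l₀ k
    · obtain ⟨k, hk, hpk⟩ := (Prime.dvd_finsetProd_iff hp.prime _).1 hpQ
      have hpk' : p = pl l₀ k := (Nat.prime_dvd_prime_iff_eq hp (pl_prime _ _)).1 hpk
      refine ⟨0, fun w i hd => ?_⟩
      rw [mul_zero, zero_add] at hd
      have hk1 := hYsub hk
      rw [mem_range] at hk1
      have hk2 : ∀ i : Fin R, k % (L + 1) ≠ 24 * W * l * i := by
        rw [hY] at hk
        exact (mem_filter.1 hk).2
      have hkw : k / (L + 1) < 4 := Nat.div_lt_of_lt_mul (by rw [mul_comm]; exact hk1)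
      have hPk : P k = 2 * e ⟨k / (L + 1), hkw⟩ * c₀ + k % (L + 1) := by
        rw [hP]
        simp only
        rw [hE]
        simp only [hkw, dif_pos]
      have hd2 : (p : ℤ) ∣ ((r + P k : ℕ) : ℤ) := by
        rw [hpk']
        exact_mod_cast hdiv k hk
      have hpl := pl_gt l₀ k
      rw [← hpk'] at hpl
      have hyL : k % (L + 1) ≤ L := by
        have := Nat.mod_lt k (show 0 < L + 1 by omega)
        omega
      have hoL : 24 * W * l * (i : ℕ) ≤ L := by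
        refine le_trans (Nat.mul_le_mul_left _ i.2.le) hL
      have hd3 := dvd_sub hd hd2
      rw [hPk] at hd3
      obtain ⟨w', hw'⟩ : ∃ w' : Fin 4, w' = ⟨k / (L + 1), hkw⟩ := ⟨_, rfl⟩
      rw [← hw'] at hd3
      have hki := hk2 i
      obtain ⟨y, hy⟩ : ∃ y, y = k % (L + 1) := ⟨_, rfl⟩
      obtain ⟨o, ho⟩ : ∃ o, o = 24 * W * l * (i : ℕ) := ⟨_, rfl⟩
      rw [← hy] at hd3 hki hyL
      rw [← ho] at hd3 hki hoL
      rcases lt_trichotomy (e w) (e w') with hlt | heq | hgt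
      · -- e w < e w'
        apply hex
        refine ⟨e w' - e w, mem_Icc.2 ⟨by omega, by have := he4 w'; omega⟩, (y : ℤ) - o,
          mem_Icc.2 ⟨by omega, by omega⟩, k, mem_range.2 hk1, ?_⟩
        rw [← hpk']
        have h5 : (((r + 2 * e w * c₀ + o : ℕ) : ℤ) - ((r + (2 * e w' * c₀ + y) : ℕ) : ℤ)) =
            -(2 * ((e w' - e w : ℕ) : ℤ) * c₀ + ((y : ℤ) - o)) := by
          rw [Nat.cast_sub hlt.le]
          push_cast
          ring
        rw [h5, dvd_neg] at hd3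
        exact hd3
      · have h5 : (((r + 2 * e w * c₀ + o : ℕ) : ℤ) - ((r + (2 * e w' * c₀ + y) : ℕ) : ℤ)) =
            (o : ℤ) - y := by
          rw [heq]
          push_cast
          ring
        rw [h5] at hd3
        have h6 : (o : ℤ) - y = 0 := by
          apply Int.eq_zero_of_abs_lt_dvd hd3
          rw [abs_lt]
          constructor <;> omega
        exact hki (by omega)
      · apply hex
        refine ⟨e w - e w', mem_Icc.2 ⟨by omega, by have := he4 w; omega⟩, (o : ℤ) - y,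
          mem_Icc.2 ⟨by omega, by omega⟩, k, mem_range.2 hk1, ?_⟩
        rw [← hpk']
        have h5 : (((r + 2 * e w * c₀ + o : ℕ) : ℤ) - ((r + (2 * e w' * c₀ + y) : ℕ) : ℤ)) =
            2 * ((e w - e w' : ℕ) : ℤ) * c₀ + ((o : ℤ) - y) := by
          rw [Nat.cast_sub hgt.le]
          push_cast
          ring
        rw [h5] at hd3
        exact hd3
    · -- `p` does not divide `Q`
      have hcopQ : IsCoprime ((∏ k ∈ Y, pl l₀ k : ℕ) : ℤ) (p : ℤ) := by
        rw [Nat.isCoprime_iff_coprime]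
        exact ((Nat.Prime.coprime_iff_not_dvd hp).2 hpQ).symm
      obtain ⟨z, hz⟩ : ∃ z : ℤ, ∀ (w : Fin 4) (i : Fin R),
          ¬ (p : ℤ) ∣ z + ((2 * e w * c₀ + 24 * W * l * i : ℕ) : ℤ) := by
        by_cases hp4 : p ≤ 4 * R
        · have hpW := hW p hp hp4
          have hred : ∀ z : ℤ, (∀ w, ¬ (p : ℤ) ∣ z + ((2 * e w * c₀ : ℕ) : ℤ)) →
              ∀ (w : Fin 4) (i : Fin R), ¬ (p : ℤ) ∣ z + ((2 * e w * c₀ + 24 * W * l * i : ℕ) : ℤ) := by
            intro z hz w i hd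
            apply hz w
            have h1 : (p : ℤ) ∣ ((24 * W * l * i : ℕ) : ℤ) := by
              have : p ∣ 24 * W * l * i := by
                rw [mul_assoc, mul_assoc, mul_comm 24, mul_assoc]
                exact Dvd.dvd.mul_right hpW _
              exact_mod_cast this
            have h2 : z + ((2 * e w * c₀ + 24 * W * l * i : ℕ) : ℤ) =
                (z + ((2 * e w * c₀ : ℕ) : ℤ)) + ((24 * W * l * i : ℕ) : ℤ) := by
              push_cast; ring
            rw [h2] at hd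
            exact (dvd_add_left h1).1 hd
          by_cases hp3 : p = 3
          · subst hp3
            obtain ⟨z, hz⟩ := he3
            exact ⟨z, hred z (fun w => by exact_mod_cast hz w)⟩
          · by_cases hp2 : p = 2
            · subst hp2
              refine ⟨1, hred 1 (fun w hd => ?_)⟩
              have h2 : ((2 : ℕ) : ℤ) ∣ ((2 * e w * c₀ : ℕ) : ℤ) := by
                rw [mul_assoc]
                exact_mod_cast Dvd.intro _ rfl
              have h3 := (dvd_add_left h2).1 hd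
              norm_num at h3
            · have hp5 : 5 ≤ p := by
                have h2 := hp.two_le
                by_contra hlt
                have h4 : p = 4 := by omega
                rw [h4] at hp
                exact absurd hp (by norm_num)
              obtain ⟨z, hz⟩ := exists_avoid hp.pos (show Fintype.card (Fin 4) < p by simp; omega)
                (fun w : Fin 4 => ((2 * e w * c₀ : ℕ) : ℤ))
              exact ⟨z, hred z hz⟩
        · push Not at hp4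
          obtain ⟨z, hz⟩ := exists_avoid hp.pos (show Fintype.card (Fin 4 × Fin R) < p by simp; omega)
            (fun x : Fin 4 × Fin R => ((2 * e x.1 * c₀ + 24 * W * l * x.2 : ℕ) : ℤ))
          exact ⟨z, fun w i => hz (w, i)⟩
      obtain ⟨s, t, hst⟩ := hcopQ
      refine ⟨s * (z - r), fun w i hd => hz w i ?_⟩
      have h1 : ((∏ k ∈ Y, pl l₀ k : ℕ) : ℤ) * (s * (z - r)) +
          ((r + 2 * e w * c₀ + 24 * W * l * i : ℕ) : ℤ) =
          (z + ((2 * e w * c₀ + 24 * W * l * i : ℕ) : ℤ)) - (p : ℤ) * (t * (z - r)) := by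
        have h2 : s * ((∏ k ∈ Y, pl l₀ k : ℕ) : ℤ) = 1 - t * p := by linarith
        calc _ = (s * ((∏ k ∈ Y, pl l₀ k : ℕ) : ℤ)) * (z - r) +
              ((r + 2 * e w * c₀ + 24 * W * l * i : ℕ) : ℤ) := by ring
          _ = _ := by rw [h2]; push_cast; ring
      rw [h1] at hd
      have h3 := dvd_add hd (Dvd.intro (t * (z - r)) (rfl : (p : ℤ) * (t * (z - r)) = _))
      rwa [sub_add_cancel] at h3
  · intro w y hy hyo
    obtain ⟨h1, h2, h3⟩ := hkk w y hy
    have hkY : (w : ℕ) * (L + 1) + y ∈ Y := by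
      rw [hY]
      refine mem_filter.2 ⟨mem_range.2 h3, fun i => ?_⟩
      rw [h2]
      exact hyo i
    refine ⟨pl l₀ ((w : ℕ) * (L + 1) + y), pl_prime _ _, ?_, dvd_prod_of_mem _ hkY, ?_⟩
    · have h4 : pl l₀ ((w : ℕ) * (L + 1) + y) ∣ ∏ k ∈ range (4 * (L + 1)), pl l₀ k :=
        dvd_prod_of_mem _ (hYsub hkY)
      exact Nat.le_of_dvd (prod_pos fun k _ => hpos k) h4
    · have h4 := hdiv _ hkY
      have h5 : r + P ((w : ℕ) * (L + 1) + y) = r + 2 * e w * c₀ + y := by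
        rw [hP]
        simp only
        rw [h1, h2, hEw]
        ring
      rwa [h5] at h4

end Pool.Agent.K7.H64.IX
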