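import Pool.Agent.TH899.UG.ExW

/-! Two clusters of primes among four clusters of linear forms. -/

set_option autoImplicit false

namespace Pool.Agent.K7.H64.IX

open Finset Filter Topology

open Classical in
/-- Among four clusters of (sufficiently many) linear forms `Q x + β`, two contain at least `m` primes. -/
theorem two_clusters (m : ℕ) (hm : 1 ≤ m) : ∃ R : ℕ, 1 ≤ R ∧ ∀ Q₀ : ℕ, ∀ η : ℝ, 0 < η →
    ∀ᶠ N : ℕ in atTop, ∀ Q : ℕ, 1 ≤ Q → Q ≤ Q₀ → ∀ β : Fin 4 → Fin R → ℤ,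
      (∀ w i, 0 ≤ β w i ∧ 100 * β w i ≤ N) →
      Function.Injective (fun x : Fin 4 × Fin R => β x.1 x.2) →
      (∀ p : ℕ, p.Prime → ∃ n : ℤ, ∀ w i, ¬ ((p : ℤ) ∣ Q * n + β w i)) →
      ∃ (w₁ w₂ : Fin 4) (I₁ I₂ : Finset (Fin R)), w₁ < w₂ ∧ m ≤ I₁.card ∧ m ≤ I₂.card ∧
        (N : ℝ) ^ (1 - η) ≤ (((Icc 1 N).filter (fun n : ℕ => (1 / 8 : ℝ) * N ≤ n ∧
          (n : ℝ) ≤ 1 / 4 * N ∧ (∀ i ∈ I₁, ((Q : ℤ) * n + β w₁ i).toNat.Prime) ∧
          ∀ i ∈ I₂, ((Q : ℤ) * n + β w₂ i).toNat.Prime)).card : ℝ) := by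
  obtain ⟨c, hc, hc1, hex⟩ := Pool.Agent.TH899.UG.NW.exactW
  obtain ⟨Λ, hΛ⟩ := exists_nat_gt (12 * (m : ℝ) / c)
  have hmr : (1 : ℝ) ≤ m := by exact_mod_cast hm
  have hΛc : 12 * (m : ℝ) < c * Λ := by
    rw [div_lt_iff₀ hc] at hΛ
    linarith
  have hΛ1 : 1 ≤ Λ := by
    by_contra h
    have h0 : Λ = 0 := by omega
    rw [h0] at hΛc
    push_cast at hΛc
    linarith
  obtain ⟨M, hM⟩ : ∃ M : ℕ, M + 1 = Λ + 3 * m := ⟨Λ + 3 * m - 1, by omega⟩
  have hMr : (M : ℝ) + 1 = Λ + 3 * m := by exact_mod_cast hM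
  have hTM : (4 - c) * (M : ℝ) < ((4 * Λ : ℕ) : ℝ) := by
    push_cast
    have h1 : (M : ℝ) = Λ + 3 * m - 1 := by linarith
    rw [h1]
    nlinarith
  obtain ⟨K, hK, hex⟩ := hex (1 / 8) (1 / 4) le_rfl (by norm_num) le_rfl (4 * Λ) M (by omega) hTM
  refine ⟨Λ * K, Nat.mul_pos hΛ1 hK, fun Q₀ η hη => ?_⟩
  filter_upwards [hex Q₀ η hη, eventually_ge_atTop 1] with N hN hN1 Q hQ1 hQ β hβ hinj hadm
  let e : Fin 4 × Fin Λ ≃ Fin (4 * Λ) := finProdFinEquiv
  let e' : Fin Λ × Fin K ≃ Fin (Λ * K) := finProdFinEquiv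
  have hN0 : (0 : ℝ) < N := by exact_mod_cast hN1
  obtain ⟨S, σ, hS, hcard⟩ := hN (fun _ _ => (Q : ℤ))
    (fun g i => β (e.symm g).1 (e' ((e.symm g).2, i)))
    (fun _ _ => by positivity)
    (fun _ _ => by rw [abs_of_nonneg (Nat.cast_nonneg _)]; exact_mod_cast hQ)
    (fun g i => by
      obtain ⟨h1, h2⟩ := hβ (e.symm g).1 (e' ((e.symm g).2, i))
      rw [abs_of_nonneg h1]
      have : (0 : ℤ) ≤ N := Nat.cast_nonneg _
      linarith)
    (fun g i y hy _ => by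
      obtain ⟨h1, h2⟩ := hβ (e.symm g).1 (e' ((e.symm g).2, i))
      have h3 : (0 : ℝ) ≤ (β (e.symm g).1 (e' ((e.symm g).2, i)) : ℝ) := by exact_mod_cast h1
      have h4 : (1 : ℝ) ≤ ((Q : ℤ) : ℝ) := by exact_mod_cast hQ1
      have hy0 : 0 ≤ y := le_trans (by positivity) hy
      have h5 : y ≤ ((Q : ℤ) : ℝ) * y := le_mul_of_one_le_left hy0 h4
      linarith)
    (by
      rintro ⟨g, i⟩ ⟨g', i'⟩ h
      simp only [Prod.mk.injEq, true_and] at h
      have h1 := hinj (a₁ := ((e.symm g).1, e' ((e.symm g).2, i)))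
        (a₂ := ((e.symm g').1, e' ((e.symm g').2, i'))) h
      simp only [Prod.mk.injEq] at h1
      obtain ⟨h2, h3⟩ := h1
      have h4 := e'.injective h3
      simp only [Prod.mk.injEq] at h4
      have h5 : g = g' := e.symm.injective (Prod.ext h2 h4.1)
      rw [h5, h4.2])
    (fun p hp => by
      obtain ⟨n, hn⟩ := hadm p hp
      exact ⟨n, fun g i => hn _ _⟩)
  set F : Fin 4 → Finset (Fin Λ) := fun w => univ.filter (fun t => e (w, t) ∈ S) with hF
  have hSsum : S.card = ∑ w, (F w).card := by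
    rw [card_eq_sum_card_fiberwise (f := fun g => (e.symm g).1) (t := univ) (fun _ _ => by simp)]
    refine sum_congr rfl fun w _ => ?_
    symm
    apply card_bij (fun t _ => e (w, t))
    · intro t ht
      rw [mem_filter]
      refine ⟨(mem_filter.1 ht).2, by simp⟩
    · intro t _ t' _ h
      have := e.injective h
      simpa using this
    · intro g hg
      obtain ⟨h1, h2⟩ := mem_filter.1 hg
      refine ⟨(e.symm g).2, mem_filter.2 ⟨mem_univ _, ?_⟩, ?_⟩
      · rw [← h2, Prod.mk.eta, Equiv.apply_symm_apply]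
        exact h1
      · rw [← h2, Prod.mk.eta, Equiv.apply_symm_apply]
  have hFle : ∀ w, (F w).card ≤ Λ := fun w => by
    have := card_le_univ (F w)
    simpa using this
  obtain ⟨w₁, w₂, hw, hw1, hw2⟩ : ∃ w₁ w₂ : Fin 4, w₁ < w₂ ∧ m ≤ (F w₁).card ∧ m ≤ (F w₂).card := by
    by_contra hcon
    push Not at hcon
    rw [Fin.sum_univ_four] at hSsum
    have a0 := hFle 0
    have a1 := hFle 1
    have a2 := hFle 2
    have a3 := hFle 3
    have b01 := hcon 0 1 (by decide)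
    have b02 := hcon 0 2 (by decide)
    have b03 := hcon 0 3 (by decide)
    have b12 := hcon 1 2 (by decide)
    have b13 := hcon 1 3 (by decide)
    have b23 := hcon 2 3 (by decide)
    omega
  refine ⟨w₁, w₂, (F w₁).image (fun t => e' (t, σ (e (w₁, t)))),
    (F w₂).image (fun t => e' (t, σ (e (w₂, t)))), hw, ?_, ?_, ?_⟩
  · rw [card_image_of_injOn]
    · exact hw1
    · intro t _ t' _ h
      have := e'.injective h
      simp only [Prod.mk.injEq] at this
      exact this.1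
  · rw [card_image_of_injOn]
    · exact hw2
    · intro t _ t' _ h
      have := e'.injective h
      simp only [Prod.mk.injEq] at this
      exact this.1
  · refine hcard.trans ?_
    rw [Nat.cast_le]
    apply card_le_card
    intro n hn
    obtain ⟨h1, h2, h3, h4⟩ := mem_filter.1 hn
    refine mem_filter.2 ⟨h1, h2, h3, ?_, ?_⟩
    · intro i hi
      obtain ⟨t, ht, rfl⟩ := mem_image.1 hi
      have h5 := h4 (e (w₁, t)) (mem_filter.1 ht).2
      simpa using h5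
    · intro i hi
      obtain ⟨t, ht, rfl⟩ := mem_image.1 hi
      have h5 := h4 (e (w₂, t)) (mem_filter.1 ht).2
      simpa using h5

end Pool.Agent.K7.H64.IX
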