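import Pool.Agent.K7.H64.IX.Idx

/-! Windows, counting. -/

set_option autoImplicit false

namespace Pool.Agent.K7.H64.IX

open Finset Filter Topology

theorem window {R V L m s a : ℕ} (hV : 1 ≤ V) (hL : V * R ≤ L) (hm : 1 ≤ m) (I : Finset (Fin R))
    (hI : m ≤ I.card) (hp : ∀ i ∈ I, (a + V * i).Prime)
    (hcov : ∀ y ≤ L, (∀ i : Fin R, y ≠ V * i) → ¬ (a + y).Prime) :
    ∃ i : Fin R, (a + V * i).Prime ∧ idx (a + V * i) % m = s % m := by
  classical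
  have hle : ∀ i : Fin R, V * (i : ℕ) ≤ L := fun i => (Nat.mul_le_mul_left V i.2.le).trans hL
  have h1 : (I.image (fun i : Fin R => a + V * i)).card = I.card := by
    apply card_image_of_injective
    intro i j h
    have h2 : a + V * (i : ℕ) = a + V * j := h
    have h3 : V * (i : ℕ) = V * j := by omega
    exact Fin.ext (Nat.eq_of_mul_eq_mul_left (by omega) h3)
  have h2 : I.image (fun i : Fin R => a + V * i) ⊆ (Icc a (a + L)).filter Nat.Prime := by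
    intro y hy
    obtain ⟨i, hi, rfl⟩ := mem_image.1 hy
    have := hle i
    exact mem_filter.2 ⟨mem_Icc.2 ⟨by omega, by omega⟩, hp i hi⟩
  obtain ⟨P, hP1, hP2, hP3⟩ := exists_idx hm s a L (by
    rw [← h1] at hI
    exact hI.trans (card_le_card h2))
  obtain ⟨h3, h4⟩ := mem_Icc.1 hP1
  by_cases hex : ∃ i : Fin R, P - a = V * i
  · obtain ⟨i, hi⟩ := hex
    have h5 : P = a + V * i := by omega
    exact ⟨i, h5 ▸ hP2, h5 ▸ hP3⟩
  · push Not at hex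
    exfalso
    refine hcov (P - a) (by omega) hex ?_
    rw [show a + (P - a) = P by omega]
    exact hP2

open Classical in
theorem pigeon2 (𝒳 : Finset ℕ) {R : ℕ} (P : ℕ → Fin R → Fin R → Prop)
    (hR : 1 ≤ R) (h : ∀ x ∈ 𝒳, ∃ i₁ i₂, P x i₁ i₂) : ∃ i₁ i₂,
    (𝒳.card : ℝ) ≤ (R : ℝ) ^ 2 * ((𝒳.filter (fun x => P x i₁ i₂)).card : ℝ) := by
  by_contra hcon
  push Not at hcon
  have : Nonempty (Fin R) := ⟨⟨0, hR⟩⟩
  have h1 : 𝒳.card ≤ ∑ z : Fin R × Fin R, (𝒳.filter (fun x => P x z.1 z.2)).card := by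
    calc 𝒳.card ≤ ((univ : Finset (Fin R × Fin R)).biUnion
        (fun z => 𝒳.filter (fun x => P x z.1 z.2))).card := by
          apply card_le_card
          intro x hx
          obtain ⟨i₁, i₂, h2⟩ := h x hx
          rw [mem_biUnion]
          exact ⟨(i₁, i₂), mem_univ _, mem_filter.2 ⟨hx, h2⟩⟩
      _ ≤ _ := card_biUnion_le
  have hR0 : (0 : ℝ) < (R : ℝ) ^ 2 := by positivity
  have h2 : ∑ z : Fin R × Fin R, ((𝒳.filter (fun x => P x z.1 z.2)).card : ℝ) <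
      ∑ _z : Fin R × Fin R, (𝒳.card : ℝ) / (R : ℝ) ^ 2 := by
    apply sum_lt_sum_of_nonempty univ_nonempty
    intro z _
    rw [lt_div_iff₀ hR0]
    have := hcon z.1 z.2
    linarith
  rw [sum_const, nsmul_eq_mul, card_univ, Fintype.card_prod, Fintype.card_fin] at h2
  have h3 : (𝒳.card : ℝ) ≤ ∑ z : Fin R × Fin R, ((𝒳.filter (fun x => P x z.1 z.2)).card : ℝ) := by
    exact_mod_cast h1
  have h4 : ((R * R : ℕ) : ℝ) * ((𝒳.card : ℝ) / (R : ℝ) ^ 2) = 𝒳.card := by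
    push_cast
    field_simp
  linarith

/-- the number of the primes `P`, `y ≤ P ≤ x`, with `idx P ≡ s` for which `P + h` is a prime with
`idx (P + h) ≡ s'` modulo `m` -/
noncomputable def cnt (m s s' h : ℕ) (y x : ℝ) : ℕ :=
  {P : ℕ | P.Prime ∧ (P + h).Prime ∧ idx P % m = s % m ∧ idx (P + h) % m = s' % m ∧
    y ≤ P ∧ (P : ℝ) ≤ x}.ncard

theorem cnt_fin (m s s' h : ℕ) (y x : ℝ) : {P : ℕ | P.Prime ∧ (P + h).Prime ∧ idx P % m = s % m ∧
    idx (P + h) % m = s' % m ∧ y ≤ P ∧ (P : ℝ) ≤ x}.Finite := by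
  refine (Set.finite_le_nat ⌊x⌋₊).subset fun P hP => ?_
  exact Nat.le_floor hP.2.2.2.2.2

theorem cnt_ge {m s s' h : ℕ} {y x : ℝ} (F : Finset ℕ) (f : ℕ → ℕ) (hf : Set.InjOn f F)
    (hF : ∀ n ∈ F, (f n).Prime ∧ (f n + h).Prime ∧ idx (f n) % m = s % m ∧
      idx (f n + h) % m = s' % m ∧ y ≤ f n ∧ (f n : ℝ) ≤ x) : F.card ≤ cnt m s s' h y x := by
  classical
  unfold cnt
  rw [← card_image_of_injOn hf, ← Set.ncard_coe_finset]
  apply Set.ncard_le_ncard _ (cnt_fin m s s' h y x)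
  intro P hP
  rw [mem_coe, mem_image] at hP
  obtain ⟨n, hn, rfl⟩ := hP
  exact hF n hn

/-- the scale `N = X / Q` -/
theorem scale (Q R : ℕ) (hQ : 1 ≤ Q) (hR : 1 ≤ R) (η : ℝ) (hη : 0 < η) (hη1 : η ≤ 1) :
    ∀ᶠ X : ℕ in atTop, (R : ℝ) ^ 2 * (X : ℝ) ^ (1 - η) < ((X / Q : ℕ) : ℝ) ^ (1 - η / 2) := by
  have hQr : (1 : ℝ) ≤ Q := by exact_mod_cast hQ
  have hRr : (1 : ℝ) ≤ R := by exact_mod_cast hR
  have h1 : ∀ᶠ X : ℕ in atTop, (R : ℝ) ^ 2 * (2 * Q) < (X : ℝ) ^ (η / 2) :=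
    ((tendsto_rpow_atTop (by positivity)).comp tendsto_natCast_atTop_atTop).eventually_gt_atTop _
  filter_upwards [h1, eventually_ge_atTop (2 * Q)] with X h2 h3
  have hX0 : (0 : ℝ) < X := by
    have : 0 < X := by omega
    exact_mod_cast this
  have h4 : (X : ℝ) / (2 * Q) ≤ ((X / Q : ℕ) : ℝ) := by
    have h5 : X < Q * (X / Q + 1) := by
      have := Nat.div_add_mod X Q
      have h6 := Nat.mod_lt X (show 0 < Q by omega)
      have h7 : Q * (X / Q + 1) = Q * (X / Q) + Q := by ring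
      omega
    have h8 : 1 ≤ X / Q := (Nat.le_div_iff_mul_le (by omega)).2 (by omega)
    have h9 : X ≤ 2 * Q * (X / Q) := by nlinarith
    rw [div_le_iff₀ (by positivity)]
    have : (X : ℝ) ≤ 2 * Q * ((X / Q : ℕ) : ℝ) := by exact_mod_cast h9
    linarith
  have h5 : ((X : ℝ) / (2 * Q)) ^ (1 - η / 2) ≤ ((X / Q : ℕ) : ℝ) ^ (1 - η / 2) :=
    Real.rpow_le_rpow (by positivity) h4 (by linarith)
  refine lt_of_lt_of_le ?_ h5
  rw [Real.div_rpow hX0.le (by positivity)]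
  have h6 : (2 * (Q : ℝ)) ^ (1 - η / 2) ≤ 2 * Q := by
    calc (2 * (Q : ℝ)) ^ (1 - η / 2) ≤ (2 * (Q : ℝ)) ^ (1 : ℝ) :=
          Real.rpow_le_rpow_of_exponent_le (by linarith) (by linarith)
      _ = 2 * Q := Real.rpow_one _
  have h7 : (0 : ℝ) < (2 * (Q : ℝ)) ^ (1 - η / 2) := by positivity
  rw [lt_div_iff₀ h7]
  have h8 : (X : ℝ) ^ (1 - η / 2) = (X : ℝ) ^ (1 - η) * (X : ℝ) ^ (η / 2) := by
    rw [← Real.rpow_add hX0]
    congr 1
    ring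
  rw [h8]
  have h9 : (0 : ℝ) < (X : ℝ) ^ (1 - η) := by positivity
  calc (R : ℝ) ^ 2 * (X : ℝ) ^ (1 - η) * (2 * (Q : ℝ)) ^ (1 - η / 2) ≤
      (R : ℝ) ^ 2 * (X : ℝ) ^ (1 - η) * (2 * Q) := by gcongr
    _ = (X : ℝ) ^ (1 - η) * ((R : ℝ) ^ 2 * (2 * Q)) := by ring
    _ < _ := mul_lt_mul_of_pos_left h2 h9

end Pool.Agent.K7.H64.IX
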