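import Pool.Agent.Y863.AA.Cls
import Pool.Agent.K7.H64.IX.Two
import Pool.Agent.K7.H64.IX.Frame
import Pool.Agent.K7.H64.IX.Win

/-! Almost all differences, between primes with indices in given classes: the main theorem at one scale. -/

set_option autoImplicit false

namespace Pool.Agent.K7.H64.IX

open Finset Filter Topology

/-- `3` if `3 ∣ c`, otherwise `4` -/
def RR (c : ℕ) : ℕ := if 3 ∣ c then 3 else 4

/-- the positions of the clusters -/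
def ee (b : Bool) : Fin 4 → ℕ := if b then ![0, 1, 2, 3] else ![0, 1, 3, 4]

theorem ee_mono (b : Bool) : StrictMono (ee b) := by
  cases b <;> unfold ee <;> simp

theorem ee_le (b : Bool) : ∀ w, ee b w ≤ if b then 3 else 4 := by
  cases b <;> unfold ee <;> decide

theorem ee_three (c : ℕ) : ∃ z : ℤ, ∀ w, ¬ (3 : ℤ) ∣ z + ((2 * ee (decide (3 ∣ c)) w * c : ℕ) : ℤ) := by
  by_cases h : 3 ∣ c
  · refine ⟨1, fun w hd => ?_⟩
    have h1 : (3 : ℤ) ∣ ((2 * ee (decide (3 ∣ c)) w * c : ℕ) : ℤ) := by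
      exact_mod_cast Dvd.dvd.mul_left h _
    have h2 := (dvd_add_left h1).1 hd
    norm_num at h2
  · refine ⟨2 * c, fun w hd => ?_⟩
    have h0 : decide (3 ∣ c) = false := by simp [h]
    rw [h0] at hd
    have h1 : ee false w = 0 ∨ ee false w = 1 ∨ ee false w = 3 ∨ ee false w = 4 := by
      fin_cases w <;> simp [ee]
    rcases h1 with h1 | h1 | h1 | h1 <;> rw [h1] at hd <;> omega

open Classical in
theorem core (m : ℕ) (hm : 1 ≤ m) (ε : ℝ) (hε : 0 < ε) : ∃ L C : ℕ, 1 ≤ C ∧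
    ∀ η : ℝ, 0 < η → η ≤ 1 → ∀ᶠ X : ℕ in atTop, ∀ u H : ℕ, L ≤ H → C * (u + H) ≤ X →
      (((Ioc u (u + H)).filter (fun c : ℕ => ∀ j : ℕ, 1 ≤ j → j ≤ RR c → ∃ s s' : Fin m,
        (cnt m s s' (2 * j * c) ((X : ℝ) / C) X : ℝ) < (X : ℝ) ^ (1 - η))).card : ℝ) ≤ ε * H := by
  obtain ⟨R, hR, htwo⟩ := two_clusters m hm
  have : Nonempty (Fin R) := ⟨⟨0, hR⟩⟩
  have : Nonempty (Fin m) := ⟨⟨0, hm⟩⟩
  obtain ⟨nc, hnc, hcopy⟩ := Pool.Agent.Y863.AA.copy (Fin 5 × Fin R × Fin R)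
    (Bool × (Fin 5 → Fin m × Fin m)) (ε / 2) (by positivity)
  obtain ⟨W, hWd⟩ : ∃ W : ℕ, W = (4 * R).factorial := ⟨_, rfl⟩
  have hW1 : 1 ≤ W := by rw [hWd]; exact Nat.succ_le_of_lt (Nat.factorial_pos _)
  have hW : ∀ p : ℕ, p.Prime → p ≤ 4 * R → p ∣ W := fun p hp hpR => by
    rw [hWd]; exact Nat.dvd_factorial hp.pos hpR
  obtain ⟨L, hL⟩ : ∃ L : ℕ, L = 24 * W * nc * R := ⟨_, rfl⟩
  obtain ⟨D, hD⟩ : ∃ D : ℝ, D = 4 * ((2 * L + 1) * ((4 * (L + 1) : ℕ) : ℝ)) := ⟨_, rfl⟩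
  have hD0 : 0 < D := by rw [hD]; positivity
  obtain ⟨K, hK⟩ := exists_nat_ge (4 * D / ε)
  obtain ⟨l₀, hl₀⟩ : ∃ l₀ : ℕ, l₀ = L + 8 + K := ⟨_, rfl⟩
  obtain ⟨Q₀, hQ₀⟩ : ∃ Q₀ : ℕ, Q₀ = ∏ k ∈ range (4 * (L + 1)), pl l₀ k := ⟨_, rfl⟩
  have hQ₀1 : 1 ≤ Q₀ := by
    rw [hQ₀]; exact Nat.succ_le_of_lt (prod_pos fun k _ => (pl_prime l₀ k).pos)
  refine ⟨K + W * (nc * (12 * R) + 1), 2000 * Q₀, by omega, fun η hη hη1 => ?_⟩
  have hdivt : Tendsto (fun X : ℕ => X / Q₀) atTop atTop := by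
    refine tendsto_atTop.2 fun B => ?_
    filter_upwards [eventually_ge_atTop (B * Q₀)] with X hX
    exact (Nat.le_div_iff_mul_le (by omega)).2 hX
  filter_upwards [hdivt.eventually (htwo Q₀ (η / 2) (by positivity)), scale Q₀ R hQ₀1 hR η hη hη1,
    eventually_ge_atTop 1, hdivt.eventually (eventually_ge_atTop (1000 * (Q₀ + L) + 8))]
    with X hN hsc hX1 hNbig u H hH hCX
  obtain ⟨N, hNdef⟩ : ∃ N : ℕ, N = X / Q₀ := ⟨_, rfl⟩
  rw [← hNdef] at hN hsc hNbig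
  have hNX : Q₀ * N ≤ X := by rw [hNdef]; exact Nat.mul_div_le X Q₀
  have hXN : X < Q₀ * (N + 1) := by
    have := Nat.div_add_mod X Q₀
    have h6 := Nat.mod_lt X (show 0 < Q₀ by omega)
    have h7 : Q₀ * (N + 1) = Q₀ * N + Q₀ := by ring
    rw [hNdef] at h7 ⊢
    omega
  by_contra hcon
  push Not at hcon
  set Bad := (Ioc u (u + H)).filter (fun c : ℕ => ∀ j : ℕ, 1 ≤ j → j ≤ RR c → ∃ s s' : Fin m,
        (cnt m s s' (2 * j * c) ((X : ℝ) / ((2000 * Q₀ : ℕ) : ℝ)) X : ℝ) < (X : ℝ) ^ (1 - η)) with hBad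
  set Bad' := Bad.filter (fun c => ¬ Exc l₀ L (4 * (L + 1)) c) with hBad'
  -- few exceptional elements
  have hHK : (K : ℝ) ≤ H := by
    have : K ≤ H := by omega
    exact_mod_cast this
  have hH0 : (0 : ℝ) ≤ H := Nat.cast_nonneg _
  have hexc : (((Ioc u (u + H)).filter (fun c : ℕ => Exc l₀ L (4 * (L + 1)) c)).card : ℝ) ≤ ε / 2 * H := by
    have hl8 : 8 ≤ l₀ := by omega
    refine (card_exc (l₀ := l₀) (L := L) (Y := 4 * (L + 1)) hl8 u H).trans ?_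
    have h1 : 4 * ((2 * (L : ℝ) + 1) * (((4 * (L + 1) : ℕ) : ℝ) * ((H : ℝ) / l₀ + 1))) =
        D * (H / l₀ + 1) := by rw [hD]; ring
    rw [h1]
    have hl0 : (0 : ℝ) < l₀ := by exact_mod_cast (by omega : 0 < l₀)
    have hKl : (K : ℝ) ≤ l₀ := by exact_mod_cast (by omega : K ≤ l₀)
    have h2 : D ≤ ε / 4 * l₀ := by
      have h3 : 4 * D / ε ≤ l₀ := hK.trans hKl
      rw [div_le_iff₀ hε] at h3
      linarith
    have h3 : D ≤ ε / 4 * H := by
      have h3 : 4 * D / ε ≤ H := hK.trans hHK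
      rw [div_le_iff₀ hε] at h3
      linarith
    have h4 : D * ((H : ℝ) / l₀) ≤ ε / 4 * H := by
      calc D * ((H : ℝ) / l₀) ≤ (ε / 4 * l₀) * ((H : ℝ) / l₀) :=
            mul_le_mul_of_nonneg_right h2 (by positivity)
        _ = ε / 4 * H := by field_simp
    linarith
  have hBad'card : ε / 2 * H < (Bad'.card : ℝ) := by
    have h1 : Bad ⊆ Bad' ∪ (Ioc u (u + H)).filter (fun c : ℕ => Exc l₀ L (4 * (L + 1)) c) := by
      intro c hc
      rw [mem_union]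
      by_cases h : Exc l₀ L (4 * (L + 1)) c
      · exact Or.inr (mem_filter.2 ⟨(mem_filter.1 hc).1, h⟩)
      · exact Or.inl (mem_filter.2 ⟨hc, h⟩)
    have h2 : (Bad.card : ℝ) ≤ Bad'.card +
        ((Ioc u (u + H)).filter (fun c : ℕ => Exc l₀ L (4 * (L + 1)) c)).card := by
      exact_mod_cast (card_le_card h1).trans (card_union_le _ _)
    linarith
  -- the colours
  have hcol : ∀ c : ℕ, ∃ f : Fin 5 → Fin m × Fin m, c ∈ Bad → ∀ j : Fin 5, 1 ≤ (j : ℕ) → (j : ℕ) ≤ RR c →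
      (cnt m (f j).1 (f j).2 (2 * j * c) ((X : ℝ) / ((2000 * Q₀ : ℕ) : ℝ)) X : ℝ) < (X : ℝ) ^ (1 - η) := by
    intro c
    by_cases hc : c ∈ Bad
    · have h1 := (mem_filter.1 hc).2
      have h2 : ∀ j : Fin 5, ∃ z : Fin m × Fin m, 1 ≤ (j : ℕ) → (j : ℕ) ≤ RR c →
          (cnt m z.1 z.2 (2 * j * c) ((X : ℝ) / ((2000 * Q₀ : ℕ) : ℝ)) X : ℝ) < (X : ℝ) ^ (1 - η) := by
        intro j
        by_cases hj : 1 ≤ (j : ℕ) ∧ (j : ℕ) ≤ RR c
        · obtain ⟨s, s', h3⟩ := h1 j hj.1 hj.2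
          exact ⟨(s, s'), fun _ _ => h3⟩
        · exact ⟨Classical.arbitrary _, fun h3 h4 => absurd ⟨h3, h4⟩ hj⟩
      choose f hf using h2
      exact ⟨f, fun _ => hf⟩
    · exact ⟨fun _ => Classical.arbitrary _, fun h => absurd h hc⟩
  choose γ hγ using hcol
  -- the copy
  obtain ⟨x, l, G, hl1, hln, hx⟩ := hcopy (fun _ => True) W (u : ℤ) (fun _ _ _ _ _ _ => trivial) hW1
    (fun z => ((12 / (z.1 : ℕ) : ℕ) : ℤ) * (((z.2.2 : ℕ) : ℤ) - ((z.2.1 : ℕ) : ℤ))) (12 * R)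
    (by
      intro z
      have h1 : ((12 / (z.1 : ℕ) : ℕ) : ℤ) ≤ 12 := by exact_mod_cast Nat.div_le_self _ _
      have h2 : (0 : ℤ) ≤ ((12 / (z.1 : ℕ) : ℕ) : ℤ) := Nat.cast_nonneg _
      have h3 : |((z.2.2 : ℕ) : ℤ) - ((z.2.1 : ℕ) : ℤ)| ≤ R := by
        have a1 := z.2.2.2
        have a2 := z.2.1.2
        rw [abs_le]
        constructor <;> omega
      rw [abs_mul, abs_of_nonneg h2]
      push_cast
      calc ((12 / (z.1 : ℕ) : ℕ) : ℤ) * |((z.2.2 : ℕ) : ℤ) - ((z.2.1 : ℕ) : ℤ)| ≤ 12 * R :=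
            mul_le_mul h1 h3 (abs_nonneg _) (by norm_num))
    H ((Nat.le_div_iff_mul_le (by omega)).2 (by
      have : nc * (12 * R) * W ≤ W * (nc * (12 * R) + 1) := by nlinarith
      omega)) (by
      have : W ≤ W * (nc * (12 * R) + 1) := Nat.le_mul_of_pos_right _ (by omega)
      omega)
    (Bad'.image (fun c : ℕ => (c : ℤ))) (by
      intro c hc
      obtain ⟨c', hc', rfl⟩ := mem_image.1 hc
      have := mem_Ioc.1 (mem_filter.1 (mem_filter.1 hc').1).1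
      rw [mem_Ioc]
      constructor <;> omega) (fun _ _ => trivial)
    (fun c : ℤ => (decide (3 ∣ c.toNat), γ c.toNat)) (by
      rw [card_image_of_injective _ (fun a b h => by exact_mod_cast h)]
      have h1 : ∀ i : DecidablePred (fun _ : ℤ => True),
          (@Finset.filter ℤ (fun _ => True) i (Ioc (u : ℤ) (u + H))).card = H := by
        intro i
        have h2 : @Finset.filter ℤ (fun _ => True) i (Ioc (u : ℤ) (u + H)) = Ioc (u : ℤ) (u + H) := by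
          ext a
          simp
        rw [h2, Int.card_Ioc]
        omega
      rw [h1]
      exact hBad'card)
  -- the base point
  have hx0 := hx (0, Classical.arbitrary _, Classical.arbitrary _)
  obtain ⟨c₀, hc₀⟩ : ∃ c₀ : ℕ, x = c₀ ∧ c₀ ∈ Bad' := by
    obtain ⟨h1, -⟩ := hx (0, ⟨0, hR⟩, ⟨0, hR⟩)
    obtain ⟨c', hc', h2⟩ := mem_image.1 h1
    refine ⟨c', ?_, hc'⟩
    rw [h2]
    simp
  obtain ⟨hxc, hc₀B⟩ := hc₀
  subst hxc
  have hxG : decide (3 ∣ c₀) = G.1 := by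
    obtain ⟨h1, h2⟩ := hx (0, ⟨0, hR⟩, ⟨0, hR⟩)
    have h3 := congrArg Prod.fst h2
    simpa using h3
  obtain ⟨hc₀Bad, hc₀E⟩ := mem_filter.1 hc₀B
  have hc₀I := mem_Ioc.1 (mem_filter.1 hc₀Bad).1
  have hL' : 24 * W * l * R ≤ L := by
    rw [hL]
    exact Nat.mul_le_mul_right _ (Nat.mul_le_mul_left _ hln)
  have hV1 : 1 ≤ 24 * W * l := by
    have : 1 ≤ W * l := Nat.mul_le_mul hW1 hl1
    nlinarith
  obtain ⟨e, he⟩ : ∃ e : Fin 4 → ℕ, e = ee (decide (3 ∣ c₀)) := ⟨_, rfl⟩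
  have hemono : StrictMono e := by rw [he]; exact ee_mono _
  have hele : ∀ w, e w ≤ RR c₀ := by
    intro w
    have := ee_le (decide (3 ∣ c₀)) w
    rw [he]
    unfold RR
    by_cases h : 3 ∣ c₀
    · simpa [h] using this
    · simpa [h] using this
  have hRR4 : RR c₀ ≤ 4 := by unfold RR; split_ifs <;> omega
  have he4 : ∀ w, e w ≤ 4 := fun w => (hele w).trans hRR4
  obtain ⟨Q, r, hQ1, hQQ, hrQ, hadm, hcov⟩ := frame hW hL' (by omega : L ≤ l₀) hc₀E e he4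
    (by rw [he]; exact ee_three c₀)
  rw [← hQ₀] at hQQ hcov
  -- sizes
  have hc₀N : 2000 * c₀ ≤ N := by
    have h1 : 2000 * Q₀ * c₀ ≤ X := le_trans (Nat.mul_le_mul_left _ hc₀I.2) hCX
    have h2 : 2000 * Q₀ * c₀ < Q₀ * (N + 1) := lt_of_le_of_lt h1 hXN
    have h3 : Q₀ * (2000 * c₀) < Q₀ * (N + 1) := by
      calc Q₀ * (2000 * c₀) = 2000 * Q₀ * c₀ := by ring
        _ < _ := h2
    have h4 := Nat.lt_of_mul_lt_mul_left h3
    omega
  have hec : ∀ w, 2 * e w * c₀ ≤ 2 * 4 * c₀ := fun w =>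
    Nat.mul_le_mul_right _ (Nat.mul_le_mul_left _ (he4 w))
  have hoL : ∀ i : Fin R, 24 * W * l * (i : ℕ) ≤ L := fun i => le_trans (Nat.mul_le_mul_left _ i.2.le) hL'
  have hβN : ∀ (w : Fin 4) (i : Fin R), 50 * (r + 2 * e w * c₀ + 24 * W * l * i) ≤ N := by
    intro w i
    have h1 := hec w
    have h2 := hoL i
    have h3 : r ≤ Q₀ := (hrQ.le).trans hQQ
    omega
  obtain ⟨w₁, w₂, I₁, I₂, hw, hI₁, hI₂, hcard⟩ := hN Q hQ1 hQQ
    (fun w i => ((r + 2 * e w * c₀ + 24 * W * l * i : ℕ) : ℤ))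
    (fun w i => ⟨Nat.cast_nonneg _, by
      have h1 := hec w
      have h2 := hoL i
      have h3 : r ≤ Q₀ := (hrQ.le).trans hQQ
      have h4 : 100 * (r + 2 * e w * c₀ + 24 * W * l * i) ≤ N := by omega
      exact_mod_cast h4⟩)
    (by
      -- injectivity
      have hlt : ∀ (w w' : Fin 4) (i i' : Fin R), w < w' →
          r + 2 * e w * c₀ + 24 * W * l * i ≠ r + 2 * e w' * c₀ + 24 * W * l * i' := by
        intro w w' i i' hww heq
        have hlt := hemono hww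
        apply hc₀E
        refine ⟨e w' - e w, mem_Icc.2 ⟨by omega, by have := he4 w'; omega⟩,
          ((24 * W * l * i' : ℕ) : ℤ) - ((24 * W * l * i : ℕ) : ℤ), ?_, 0, mem_range.2 (by omega), ?_⟩
        · have h1 := hoL i
          have h2 := hoL i'
          rw [mem_Icc]
          constructor <;> omega
        · have h5 : 2 * ((e w' - e w : ℕ) : ℤ) * c₀ +
              (((24 * W * l * i' : ℕ) : ℤ) - ((24 * W * l * i : ℕ) : ℤ)) = 0 := by
            have h6 : ((r + 2 * e w * c₀ + 24 * W * l * i : ℕ) : ℤ) =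
              ((r + 2 * e w' * c₀ + 24 * W * l * i' : ℕ) : ℤ) := by exact_mod_cast heq
            rw [Nat.cast_sub hlt.le]
            push_cast at h6 ⊢
            linear_combination -h6
          rw [h5]
          exact dvd_zero _
      rintro ⟨w, i⟩ ⟨w', i'⟩ h
      have h' : r + 2 * e w * c₀ + 24 * W * l * i = r + 2 * e w' * c₀ + 24 * W * l * i' := by
        have : ((r + 2 * e w * c₀ + 24 * W * l * i : ℕ) : ℤ) =
          ((r + 2 * e w' * c₀ + 24 * W * l * i' : ℕ) : ℤ) := h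
        exact_mod_cast this
      rcases lt_trichotomy w w' with h1 | h1 | h1
      · exact absurd h' (hlt _ _ _ _ h1)
      · subst h1
        have h2 : 24 * W * l * (i : ℕ) = 24 * W * l * (i' : ℕ) := by omega
        have h3 := Nat.eq_of_mul_eq_mul_left (by omega) h2
        rw [Fin.ext h3]
      · exact absurd h'.symm (hlt _ _ _ _ h1))
    hadm
  -- the difference
  obtain ⟨j, hj⟩ : ∃ j : ℕ, j = e w₂ - e w₁ := ⟨_, rfl⟩
  have hjlt := hemono hw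
  have hj1 : 1 ≤ j := by omega
  have hjR : j ≤ RR c₀ := by have := hele w₂; omega
  have hj4 : j ≤ 4 := hjR.trans hRR4
  have hje : e w₂ = e w₁ + j := by omega
  obtain ⟨jf, hjf⟩ : ∃ jf : Fin 5, (jf : ℕ) = j := ⟨⟨j, by omega⟩, rfl⟩
  obtain ⟨s, hs⟩ : ∃ s : ℕ, s = ((G.2 jf).1 : ℕ) := ⟨_, rfl⟩
  obtain ⟨s', hs'⟩ : ∃ s' : ℕ, s' = ((G.2 jf).2 : ℕ) := ⟨_, rfl⟩
  set 𝒳 := (Icc 1 N).filter (fun n : ℕ => (1 / 8 : ℝ) * N ≤ n ∧ (n : ℝ) ≤ 1 / 4 * N ∧
          (∀ i ∈ I₁, ((Q : ℤ) * n + ((r + 2 * e w₁ * c₀ + 24 * W * l * i : ℕ) : ℤ)).toNat.Prime) ∧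
          ∀ i ∈ I₂, ((Q : ℤ) * n + ((r + 2 * e w₂ * c₀ + 24 * W * l * i : ℕ) : ℤ)).toNat.Prime) with h𝒳
  have hcomp : ∀ n ∈ 𝒳, ∀ (w : Fin 4), ∀ y ≤ L, (∀ i : Fin R, y ≠ 24 * W * l * i) →
      ¬ (Q * n + r + 2 * e w * c₀ + y).Prime := by
    intro n hn w y hy hyo hpr
    obtain ⟨q, hq, hqQ, hqd, hqr⟩ := hcov w y hy hyo
    have h1 : q ∣ Q * n + r + 2 * e w * c₀ + y := by
      have h2 : Q * n + r + 2 * e w * c₀ + y = Q * n + (r + 2 * e w * c₀ + y) := by ring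
      rw [h2]
      exact dvd_add (Dvd.dvd.mul_right hqd _) hqr
    have h2 := (Nat.prime_dvd_prime_iff_eq hq hpr).1 h1
    have h3 : (1 / 8 : ℝ) * N ≤ n := (mem_filter.1 hn).2.1
    have h4 : Q₀ < n := by
      have h5 : (8 : ℝ) * (Q₀ + 1) ≤ N := by
        have : 8 * (Q₀ + 1) ≤ N := by omega
        exact_mod_cast this
      have h6 : (Q₀ : ℝ) + 1 ≤ n := by linarith
      have : Q₀ + 1 ≤ n := by exact_mod_cast h6
      omega
    have h5 : n ≤ Q * n := Nat.le_mul_of_pos_left _ hQ1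
    omega
  have htoNat : ∀ (n : ℕ) (w : Fin 4) (i : Fin R), ((Q : ℤ) * n + ((r + 2 * e w * c₀ + 24 * W * l * i : ℕ) : ℤ)).toNat =
      (Q * n + r + 2 * e w * c₀) + 24 * W * l * i := by
    intro n w i
    have : ((Q : ℤ) * n + ((r + 2 * e w * c₀ + 24 * W * l * i : ℕ) : ℤ)) =
        (((Q * n + r + 2 * e w * c₀) + 24 * W * l * i : ℕ) : ℤ) := by push_cast; ring
    rw [this]
    exact Int.toNat_natCast _
  obtain ⟨i₁, i₂, hpig⟩ := pigeon2 𝒳 (fun n i₁ i₂ =>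
      ((Q * n + r + 2 * e w₁ * c₀) + 24 * W * l * (i₁ : ℕ)).Prime ∧
      idx ((Q * n + r + 2 * e w₁ * c₀) + 24 * W * l * (i₁ : ℕ)) % m = s % m ∧
      ((Q * n + r + 2 * e w₂ * c₀) + 24 * W * l * (i₂ : ℕ)).Prime ∧
      idx ((Q * n + r + 2 * e w₂ * c₀) + 24 * W * l * (i₂ : ℕ)) % m = s' % m) hR (by
    intro n hn
    obtain ⟨-, -, -, h1, h2⟩ := mem_filter.1 hn
    obtain ⟨i₁, h3, h4⟩ := window (R := R) (s := s) (a := Q * n + r + 2 * e w₁ * c₀) hV1 hL' hm I₁ hI₁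
      (fun i hi => by
        have := h1 i hi
        rwa [htoNat] at this)
      (hcomp n hn w₁)
    obtain ⟨i₂, h5, h6⟩ := window (R := R) (s := s') (a := Q * n + r + 2 * e w₂ * c₀) hV1 hL' hm I₂ hI₂
      (fun i hi => by
        have := h2 i hi
        rwa [htoNat] at this)
      (hcomp n hn w₂)
    exact ⟨i₁, i₂, h3, h4, h5, h6⟩)
  -- the new difference
  obtain ⟨h1, h2⟩ := hx (jf, i₁, i₂)
  obtain ⟨c', hc', hc'eq⟩ := mem_image.1 h1
  rw [← hc'eq] at h2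
  have hG1 : decide (3 ∣ c') = G.1 := by
    have h3 := congrArg Prod.fst h2
    simpa using h3
  have hG2 : γ c' = G.2 := by
    have h3 := congrArg Prod.snd h2
    simpa using h3
  have hRRc : RR c' = RR c₀ := by
    have h3 : decide (3 ∣ c') = decide (3 ∣ c₀) := hG1.trans hxG.symm
    have h4 : 3 ∣ c' ↔ 3 ∣ c₀ := by simpa using h3
    unfold RR
    by_cases h5 : 3 ∣ c₀
    · rw [if_pos h5, if_pos (h4.2 h5)]
    · rw [if_neg h5, if_neg (fun h6 => h5 (h4.1 h6))]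
  have hc'Bad := (mem_filter.1 hc').1
  have hfew := hγ c' hc'Bad jf (by omega) (by rw [hRRc]; omega)
  rw [hG2, ← hs, ← hs', hjf] at hfew
  have hdiff : 2 * (j : ℤ) * c' = 2 * j * c₀ + ((24 * W * l * i₂ : ℕ) : ℤ) - ((24 * W * l * i₁ : ℕ) : ℤ) := by
    have h3 : (c' : ℤ) = c₀ + l * (W * (((12 / j : ℕ) : ℤ) * (((i₂ : ℕ) : ℤ) - ((i₁ : ℕ) : ℤ)))) := by
      rw [hc'eq]
      simp only [hjf]
    have h4 : (j : ℤ) * ((12 / j : ℕ) : ℤ) = 12 := by
      have h5 : j = 1 ∨ j = 2 ∨ j = 3 ∨ j = 4 := by omega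
      rcases h5 with h5 | h5 | h5 | h5 <;> rw [h5] <;> norm_num
    rw [h3]
    generalize 12 / j = q12 at h4
    push_cast
    linear_combination (2 * (l : ℤ) * W * (((i₂ : ℕ) : ℤ) - ((i₁ : ℕ) : ℤ))) * h4
  -- the contradiction
  have hge : ((𝒳.filter (fun n =>
      ((Q * n + r + 2 * e w₁ * c₀) + 24 * W * l * (i₁ : ℕ)).Prime ∧
      idx ((Q * n + r + 2 * e w₁ * c₀) + 24 * W * l * (i₁ : ℕ)) % m = s % m ∧
      ((Q * n + r + 2 * e w₂ * c₀) + 24 * W * l * (i₂ : ℕ)).Prime ∧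
      idx ((Q * n + r + 2 * e w₂ * c₀) + 24 * W * l * (i₂ : ℕ)) % m = s' % m)).card) ≤
      cnt m s s' (2 * j * c') ((X : ℝ) / ((2000 * Q₀ : ℕ) : ℝ)) X := by
    apply cnt_ge _ (fun n => (Q * n + r + 2 * e w₁ * c₀) + 24 * W * l * (i₁ : ℕ))
    · intro n _ n' _ h
      have h3 : (Q * n + r + 2 * e w₁ * c₀) + 24 * W * l * (i₁ : ℕ) =
        (Q * n' + r + 2 * e w₁ * c₀) + 24 * W * l * (i₁ : ℕ) := h
      have h4 : Q * n = Q * n' := by omega
      exact Nat.eq_of_mul_eq_mul_left (by omega) h4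
    · intro n hn
      obtain ⟨hn𝒳, h3, h4, h5, h6⟩ := mem_filter.1 hn
      obtain ⟨-, h7, h8, -, -⟩ := mem_filter.1 hn𝒳
      have h9 : (Q * n + r + 2 * e w₁ * c₀) + 24 * W * l * (i₁ : ℕ) + 2 * j * c' =
          (Q * n + r + 2 * e w₂ * c₀) + 24 * W * l * (i₂ : ℕ) := by
        have h10 : (((Q * n + r + 2 * e w₁ * c₀) + 24 * W * l * (i₁ : ℕ) + 2 * j * c' : ℕ) : ℤ) =
          (((Q * n + r + 2 * e w₂ * c₀) + 24 * W * l * (i₂ : ℕ) : ℕ) : ℤ) := by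
          rw [hje]
          push_cast at hdiff ⊢
          linear_combination hdiff
        exact_mod_cast h10
      have hb := hβN w₁ i₁
      have hQr : (1 : ℝ) ≤ Q := by exact_mod_cast hQ1
      have hQQr : (Q : ℝ) ≤ Q₀ := by exact_mod_cast hQQ
      have hQ₀r : (1 : ℝ) ≤ Q₀ := by exact_mod_cast hQ₀1
      have hn0 : (0 : ℝ) ≤ n := Nat.cast_nonneg _
      refine ⟨h3, ?_, h4, ?_, ?_, ?_⟩
      · rw [h9]; exact h5
      · rw [h9]; exact h6
      · -- lower bound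
        have h10 : (X : ℝ) ≤ Q₀ * (N + 1) := by exact_mod_cast hXN.le
        have hN8 : (8 : ℝ) ≤ N := by exact_mod_cast (by omega : 8 ≤ N)
        have h11 : (X : ℝ) / ((2000 * Q₀ : ℕ) : ℝ) ≤ n := by
          rw [div_le_iff₀ (by positivity)]
          push_cast
          nlinarith
        have h12 : n ≤ Q * n + r + 2 * e w₁ * c₀ + 24 * W * l * (i₁ : ℕ) := by
          have : n ≤ Q * n := Nat.le_mul_of_pos_left _ hQ1
          omega
        refine h11.trans ?_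
        exact_mod_cast h12
      · have h10 : ((Q * n : ℕ) : ℝ) ≤ 1 / 4 * (Q₀ * N) := by
          push_cast
          calc (Q : ℝ) * n ≤ Q₀ * (1 / 4 * N) := mul_le_mul hQQr h8 hn0 (by positivity)
            _ = _ := by ring
        have h11 : ((Q₀ * N : ℕ) : ℝ) ≤ X := by exact_mod_cast hNX
        have h12 : ((r + 2 * e w₁ * c₀ + 24 * W * l * i₁ : ℕ) : ℝ) ≤ 1 / 50 * N := by
          have : ((50 * (r + 2 * e w₁ * c₀ + 24 * W * l * i₁) : ℕ) : ℝ) ≤ N := by exact_mod_cast hb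
          push_cast at this ⊢
          linarith
        have h13 : (N : ℝ) ≤ Q₀ * N := le_mul_of_one_le_left (Nat.cast_nonneg _) hQ₀r
        have h14 : ((Q * n + r + 2 * e w₁ * c₀ + 24 * W * l * (i₁ : ℕ) : ℕ) : ℝ) =
            ((Q * n : ℕ) : ℝ) + ((r + 2 * e w₁ * c₀ + 24 * W * l * i₁ : ℕ) : ℝ) := by
          push_cast; ring
        rw [h14]
        push_cast at h11 ⊢
        push_cast at h10 h12
        have h15 : (0 : ℝ) ≤ Q₀ * N := by positivity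
        linarith
  have hfin : (𝒳.card : ℝ) ≤ (R : ℝ) ^ 2 * (X : ℝ) ^ (1 - η) := by
    refine hpig.trans ?_
    apply mul_le_mul_of_nonneg_left _ (by positivity)
    refine le_trans (Nat.cast_le.2 (card_le_card ?_)) ((Nat.cast_le.2 hge).trans hfew.le)
    intro n hn
    simp only [Finset.mem_filter] at hn ⊢
    exact hn
  exact absurd (hcard.trans hfin) (not_le.2 hsc)

end Pool.Agent.K7.H64.IX
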