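import Mathlib

/-! Indices of the primes in a short interval: all residue classes occur. -/

set_option autoImplicit false

namespace Pool.Agent.K7.H64.IX

open Finset

/-- the index of the prime `P`: the number of the primes `≤ P` -/
def idx (P : ℕ) : ℕ := Nat.count Nat.Prime P + 1

theorem nth_idx {P : ℕ} (hP : P.Prime) : Nat.nth Nat.Prime (idx P - 1) = P := by
  unfold idx
  rw [Nat.add_sub_cancel]
  exact Nat.nth_count hP

/-- the number of the primes in `[a, a + l]` -/
theorem count_add (a l : ℕ) : Nat.count Nat.Prime (a + l + 1) = Nat.count Nat.Prime a +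
    ((Icc a (a + l)).filter Nat.Prime).card := by
  have h1 : ∀ N : ℕ, Nat.count Nat.Prime N = ((range N).filter Nat.Prime).card := fun N => by
    rw [Nat.count_eq_card_filter_range]
  rw [h1, h1, ← card_union_of_disjoint]
  · congr 1
    ext x
    simp only [mem_filter, mem_range, mem_union, mem_Icc]
    constructor
    · rintro ⟨h2, h3⟩
      by_cases h4 : x < a
      · exact Or.inl ⟨h4, h3⟩
      · exact Or.inr ⟨⟨by omega, by omega⟩, h3⟩
    · rintro (⟨h2, h3⟩ | ⟨⟨h2, h3⟩, h4⟩)
      · exact ⟨by omega, h3⟩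
      · exact ⟨by omega, h4⟩
  · rw [disjoint_left]
    intro x hx hx'
    simp only [mem_filter, mem_range, mem_Icc] at hx hx'
    omega

/-- an interval with at least `m` primes contains a prime with its index in any given class modulo `m` -/
theorem exists_idx {m : ℕ} (hm : 1 ≤ m) (s a l : ℕ)
    (h : m ≤ ((Icc a (a + l)).filter Nat.Prime).card) :
    ∃ P ∈ Icc a (a + l), P.Prime ∧ idx P % m = s % m := by
  have h1 := count_add a l
  set c := Nat.count Nat.Prime a with hc
  -- an index `t`, `c ≤ t < c + m` with `t + 1 ≡ s`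
  obtain ⟨t, ht1, ht2, ht3⟩ : ∃ t, c ≤ t ∧ t < c + m ∧ (t + 1) % m = s % m := by
    -- write `s + m * (c + 1) - (c + 1)` reduced
    set d := (s % m + (m - (c + 1) % m)) % m with hd
    refine ⟨c + d, Nat.le_add_right _ _, by
      have := Nat.mod_lt (s % m + (m - (c + 1) % m)) (show 0 < m by omega)
      omega, ?_⟩
    have h2 : (c + 1) % m < m := Nat.mod_lt _ (by omega)
    have h3 : c + d + 1 = (c + 1) + d := by ring
    rw [h3, hd, Nat.add_mod, Nat.mod_mod]
    have h4 : ((c + 1) % m + (s % m + (m - (c + 1) % m)) % m) % m =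
        ((c + 1) % m + (s % m + (m - (c + 1) % m))) % m := by
      rw [Nat.add_mod_mod]
    rw [h4]
    have h5 : (c + 1) % m + (s % m + (m - (c + 1) % m)) = s % m + m := by omega
    rw [h5, Nat.add_mod_right, Nat.mod_mod]
  have hp := Nat.prime_nth_prime t
  have h5 : t < Nat.count Nat.Prime (a + l + 1) := by omega
  have h6 : Nat.nth Nat.Prime t < a + l + 1 := Nat.nth_lt_of_lt_count h5
  have h7 : a ≤ Nat.nth Nat.Prime t := by
    by_contra hlt
    push Not at hlt
    have h8 : Nat.count Nat.Prime (Nat.nth Nat.Prime t + 1) ≤ Nat.count Nat.Prime a :=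
      Nat.count_monotone _ (by omega)
    rw [Nat.count_nth_succ_of_infinite Nat.infinite_setOfPred_prime] at h8
    omega
  refine ⟨Nat.nth Nat.Prime t, mem_Icc.2 ⟨h7, by omega⟩, hp, ?_⟩
  unfold idx
  rw [Nat.count_nth_of_infinite Nat.infinite_setOfPred_prime]
  exact ht3

end Pool.Agent.K7.H64.IX
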