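import Mathlib

/-! Local lemmas: sparse exceptional sets, residue classes, the pool of primes. -/

set_option autoImplicit false

namespace Pool.Agent.K7.H64.IX

open Finset

/-- a residue class which avoids fewer than `p` classes -/
theorem exists_avoid {ι : Type} [Fintype ι] {p : ℕ} (hp : 0 < p) (h : Fintype.card ι < p) (f : ι → ℤ) :
    ∃ z : ℤ, ∀ i, ¬ (p : ℤ) ∣ z + f i := by
  classical
  have hpz : (0 : ℤ) < p := by exact_mod_cast hp
  have h1 : (univ.image (fun i => ((-f i) % p).toNat)).card < (range p).card := by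
    rw [card_range]
    exact lt_of_le_of_lt card_image_le (by simpa using h)
  obtain ⟨z, hz1, hz2⟩ := exists_mem_notMem_of_card_lt_card h1
  refine ⟨z, fun i hd => hz2 ?_⟩
  rw [mem_image]
  refine ⟨i, mem_univ _, ?_⟩
  have h2 : (-f i) % p = (z : ℤ) % p := by
    have h3 : (z : ℤ) ≡ -f i [ZMOD p] := by
      rw [Int.modEq_comm, Int.modEq_iff_dvd]
      simpa using hd
    exact h3.symm
  rw [h2, Int.emod_eq_of_lt (Nat.cast_nonneg _) (by exact_mod_cast mem_range.1 hz1)]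
  exact Int.toNat_natCast z

/-- the number of the `c` in an interval with `ℓ ∣ 2 j c + t` -/
theorem card_dvd {ℓ j : ℕ} (hℓ : ℓ.Prime) (hj : 1 ≤ j) (hjℓ : 2 * j < ℓ) (t : ℤ) (u H : ℕ) :
    (((Ioc u (u + H)).filter (fun c : ℕ => (ℓ : ℤ) ∣ 2 * j * c + t)).card : ℝ) ≤ H / ℓ + 1 := by
  have hℓ0 : 0 < ℓ := hℓ.pos
  by_cases hne : ((Ioc u (u + H)).filter (fun c : ℕ => (ℓ : ℤ) ∣ 2 * j * c + t)).Nonempty
  · obtain ⟨c₀, hc₀⟩ := hne
    obtain ⟨-, h0⟩ := mem_filter.1 hc₀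
    have hsub : (Ioc u (u + H)).filter (fun c : ℕ => (ℓ : ℤ) ∣ 2 * j * c + t) ⊆
        (Ioc u (u + H)).filter (fun c : ℕ => c ≡ c₀ [MOD ℓ]) := by
      intro c hc
      obtain ⟨h1, h2⟩ := mem_filter.1 hc
      refine mem_filter.2 ⟨h1, ?_⟩
      have h3 : (ℓ : ℤ) ∣ ((2 * j : ℕ) : ℤ) * ((c₀ : ℤ) - c) := by
        have h4 := dvd_sub h0 h2
        have h5 : (2 * (j : ℤ) * c₀ + t) - (2 * j * c + t) = ((2 * j : ℕ) : ℤ) * ((c₀ : ℤ) - c) := by
          push_cast; ring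
        rwa [h5] at h4
      have h6 : IsCoprime (ℓ : ℤ) ((2 * j : ℕ) : ℤ) := by
        rw [Nat.isCoprime_iff_coprime, Nat.Prime.coprime_iff_not_dvd hℓ]
        intro h7
        have := Nat.le_of_dvd (by omega) h7
        omega
      have h8 := h6.dvd_of_dvd_mul_left h3
      have h9 : (c : ℤ) ≡ c₀ [ZMOD ℓ] := Int.modEq_iff_dvd.2 h8
      exact (Int.natCast_modEq_iff).1 h9
    have h1 := card_le_card hsub
    have h2 : (((Ioc u (u + H)).filter (fun c : ℕ => c ≡ c₀ [MOD ℓ])).card : ℝ) ≤ H / ℓ + 1 := by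
      have h0' := Nat.Ioc_filter_modEq_card u (u + H) hℓ0 c₀
      have hq : (0 : ℚ) < ℓ := by exact_mod_cast hℓ0
      have h4 : (⌊(((u + H : ℕ) : ℚ) - (c₀ : ℚ)) / (ℓ : ℚ)⌋ : ℚ) ≤ (((u + H : ℕ) : ℚ) - (c₀ : ℚ)) / (ℓ : ℚ) :=
        Int.floor_le _
      have h5 : (((u : ℕ) : ℚ) - (c₀ : ℚ)) / (ℓ : ℚ) < ⌊(((u : ℕ) : ℚ) - (c₀ : ℚ)) / (ℓ : ℚ)⌋ + 1 :=
        Int.lt_floor_add_one _
      have h6 : ((((Ioc u (u + H)).filter (fun c : ℕ => c ≡ c₀ [MOD ℓ])).card : ℤ) : ℚ) ≤ H / ℓ + 1 := by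
        rw [h0', Int.cast_max, Int.cast_sub, Int.cast_zero]
        apply max_le
        · have h7 : (((u + H : ℕ) : ℚ) - (c₀ : ℚ)) / (ℓ : ℚ) - (((u : ℕ) : ℚ) - (c₀ : ℚ)) / (ℓ : ℚ) = H / ℓ := by
            push_cast
            field_simp
            ring
          linarith
        · positivity
      have h8 : (((((Ioc u (u + H)).filter (fun c : ℕ => c ≡ c₀ [MOD ℓ])).card : ℚ)) : ℝ) ≤ ((H / ℓ + 1 : ℚ) : ℝ) := by
        exact_mod_cast h6
      push_cast at h8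
      exact h8
    calc (((Ioc u (u + H)).filter (fun c : ℕ => (ℓ : ℤ) ∣ 2 * j * c + t)).card : ℝ) ≤
        (((Ioc u (u + H)).filter (fun c : ℕ => c ≡ c₀ [MOD ℓ])).card : ℝ) := by exact_mod_cast h1
      _ ≤ _ := h2
  · rw [not_nonempty_iff_eq_empty] at hne
    rw [hne, card_empty]
    push_cast
    positivity

/-- the pool of primes -/
noncomputable def pl (l₀ k : ℕ) : ℕ := Nat.nth Nat.Prime (l₀ + k)

theorem pl_prime (l₀ k : ℕ) : (pl l₀ k).Prime := Nat.prime_nth_prime _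

theorem pl_gt (l₀ k : ℕ) : l₀ < pl l₀ k := by
  have := Nat.add_two_le_nth_prime (l₀ + k)
  unfold pl
  omega

theorem pl_inj (l₀ : ℕ) : Function.Injective (pl l₀) := by
  intro a b h
  have := Nat.nth_injective Nat.infinite_setOfPred_prime h
  omega

/-- the exceptional `c` -/
def Exc (l₀ L Y : ℕ) (c : ℕ) : Prop :=
  ∃ j ∈ Icc 1 4, ∃ t ∈ Icc (-(L : ℤ)) L, ∃ k ∈ range Y, ((pl l₀ k : ℕ) : ℤ) ∣ 2 * (j : ℕ) * c + t

open Classical in
theorem card_exc {l₀ L Y : ℕ} (h8 : 8 ≤ l₀) (u H : ℕ) :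
    (((Ioc u (u + H)).filter (fun c : ℕ => Exc l₀ L Y c)).card : ℝ) ≤
      4 * ((2 * L + 1) * (Y * ((H : ℝ) / l₀ + 1))) := by
  have h1 : (Ioc u (u + H)).filter (fun c : ℕ => Exc l₀ L Y c) ⊆
      (Icc 1 4).biUnion (fun j : ℕ => (Icc (-(L : ℤ)) L).biUnion (fun t : ℤ =>
        (range Y).biUnion (fun k : ℕ => (Ioc u (u + H)).filter (fun c : ℕ =>
          ((pl l₀ k : ℕ) : ℤ) ∣ 2 * j * c + t)))) := by
    intro c hc
    obtain ⟨h2, j, hj, t, ht, k, hk, h3⟩ := mem_filter.1 hc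
    rw [mem_biUnion]
    refine ⟨j, hj, ?_⟩
    rw [mem_biUnion]
    refine ⟨t, ht, ?_⟩
    rw [mem_biUnion]
    exact ⟨k, hk, mem_filter.2 ⟨h2, h3⟩⟩
  have hl0 : (0 : ℝ) < l₀ := by exact_mod_cast (by omega : 0 < l₀)
  have hH : (0 : ℝ) ≤ H := Nat.cast_nonneg _
  have h3 : ∀ j ∈ Icc 1 4, ∀ t : ℤ, ∀ k : ℕ, (((Ioc u (u + H)).filter (fun c : ℕ =>
      ((pl l₀ k : ℕ) : ℤ) ∣ 2 * (j : ℕ) * c + t)).card : ℝ) ≤ (H : ℝ) / l₀ + 1 := by
    intro j hj t k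
    have hj' := mem_Icc.1 hj
    have hg := pl_gt l₀ k
    refine (card_dvd (pl_prime l₀ k) hj'.1 (by omega) t u H).trans ?_
    have h4 : (l₀ : ℝ) ≤ (pl l₀ k : ℝ) := by exact_mod_cast hg.le
    have h5 : (H : ℝ) / (pl l₀ k : ℝ) ≤ (H : ℝ) / l₀ := div_le_div_of_nonneg_left hH hl0 h4
    linarith
  calc (((Ioc u (u + H)).filter (fun c : ℕ => Exc l₀ L Y c)).card : ℝ) ≤
      (((Icc 1 4).biUnion (fun j : ℕ => (Icc (-(L : ℤ)) L).biUnion (fun t : ℤ =>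
        (range Y).biUnion (fun k : ℕ => (Ioc u (u + H)).filter (fun c : ℕ =>
          ((pl l₀ k : ℕ) : ℤ) ∣ 2 * j * c + t))))).card : ℝ) := by exact_mod_cast card_le_card h1
    _ ≤ ∑ j ∈ Icc 1 4, ∑ t ∈ Icc (-(L : ℤ)) L, ∑ k ∈ range Y, (((Ioc u (u + H)).filter (fun c : ℕ =>
          ((pl l₀ k : ℕ) : ℤ) ∣ 2 * (j : ℕ) * c + t)).card : ℝ) := by
        have e1 := card_biUnion_le (s := Icc 1 4) (t := fun j : ℕ => (Icc (-(L : ℤ)) L).biUnion (fun t : ℤ =>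
          (range Y).biUnion (fun k : ℕ => (Ioc u (u + H)).filter (fun c : ℕ =>
          ((pl l₀ k : ℕ) : ℤ) ∣ 2 * j * c + t))))
        refine (Nat.cast_le.2 e1).trans ?_
        rw [Nat.cast_sum]
        refine sum_le_sum fun j _ => ?_
        have e2 := card_biUnion_le (s := Icc (-(L : ℤ)) L) (t := fun t : ℤ =>
          (range Y).biUnion (fun k : ℕ => (Ioc u (u + H)).filter (fun c : ℕ =>
          ((pl l₀ k : ℕ) : ℤ) ∣ 2 * j * c + t)))
        refine (Nat.cast_le.2 e2).trans ?_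
        rw [Nat.cast_sum]
        refine sum_le_sum fun t _ => ?_
        have e3 := card_biUnion_le (s := range Y) (t := fun k : ℕ => (Ioc u (u + H)).filter (fun c : ℕ =>
          ((pl l₀ k : ℕ) : ℤ) ∣ 2 * j * c + t))
        refine (Nat.cast_le.2 e3).trans ?_
        rw [Nat.cast_sum]
    _ ≤ ∑ j ∈ Icc 1 4, ∑ t ∈ Icc (-(L : ℤ)) L, ∑ k ∈ range Y, ((H : ℝ) / l₀ + 1) :=
        sum_le_sum fun j hj => sum_le_sum fun t _ => sum_le_sum fun k _ => h3 j hj t k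
    _ = 4 * ((2 * L + 1) * (Y * ((H : ℝ) / l₀ + 1))) := by
        rw [sum_const, sum_const, sum_const, nsmul_eq_mul, nsmul_eq_mul, nsmul_eq_mul, card_range,
          Int.card_Icc, Nat.card_Icc]
        have h5 : (((L : ℤ) + 1 - -(L : ℤ)).toNat : ℝ) = 2 * L + 1 := by
          have : ((L : ℤ) + 1 - -(L : ℤ)).toNat = 2 * L + 1 := by omega
          rw [this]; push_cast; ring
        rw [h5]
        norm_num

end Pool.Agent.K7.H64.IX
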