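import Pool.Agent.TH899.UG.ExW

/-! A quarter of the clusters of linear forms contain at least `m` primes. -/

set_option autoImplicit false

namespace Pool.Agent.K7.H64.IX

open Finset Filter Topology

open Classical in
theorem quarter_clusters (T m : ℕ) (hT : 1 ≤ T) (hm : 1 ≤ m) : ∃ R : ℕ, 1 ≤ R ∧
    ∀ η : ℝ, 0 < η → ∀ᶠ N : ℕ in atTop, ∀ β : Fin T → Fin R → ℤ,
      (∀ w i, 0 ≤ β w i ∧ β w i ≤ N) →
      Function.Injective (fun x : Fin T × Fin R => β x.1 x.2) →
      (∀ p : ℕ, p.Prime → ∃ n : ℤ, ∀ w i, ¬ ((p : ℤ) ∣ n + β w i)) →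
      ∃ (S : Finset (Fin T)) (I : Fin T → Finset (Fin R)), T ≤ 4 * S.card ∧ (∀ g ∈ S, m ≤ (I g).card) ∧
        (N : ℝ) ^ (1 - η) ≤ (((Icc 1 N).filter (fun n : ℕ => (1 / 8 : ℝ) * N ≤ n ∧
          (n : ℝ) ≤ 1 / 4 * N ∧ ∀ g ∈ S, ∀ i ∈ I g, ((n : ℤ) + β g i).toNat.Prime)).card : ℝ) := by
  obtain ⟨c, hc, hc1, hex⟩ := Pool.Agent.TH899.UG.NW.exactW
  obtain ⟨Λ, hΛ⟩ := exists_nat_gt (16 * (m : ℝ) / c)
  have hmr : (1 : ℝ) ≤ m := by exact_mod_cast hm
  have hTr : (1 : ℝ) ≤ T := by exact_mod_cast hT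
  have hΛc : 16 * (m : ℝ) < c * Λ := by
    rw [div_lt_iff₀ hc] at hΛ
    linarith
  have hΛ1 : 1 ≤ Λ := by
    by_contra h
    have h0 : Λ = 0 := by omega
    rw [h0] at hΛc
    push_cast at hΛc
    linarith
  have hΛr : (1 : ℝ) ≤ Λ := by exact_mod_cast hΛ1
  have h4c : (0 : ℝ) < 4 - c := by linarith
  have hTΛ : (0 : ℝ) < (T : ℝ) * Λ := by positivity
  have hy0 : 0 < (T : ℝ) * Λ / (4 - c) := div_pos hTΛ h4c
  obtain ⟨K1, hK1⟩ : ∃ K1 : ℕ, K1 = ⌈(T : ℝ) * Λ / (4 - c)⌉₊ := ⟨_, rfl⟩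
  have hK1a : (T : ℝ) * Λ / (4 - c) ≤ K1 := by rw [hK1]; exact Nat.le_ceil _
  have hK1b : (K1 : ℝ) < (T : ℝ) * Λ / (4 - c) + 1 := by rw [hK1]; exact Nat.ceil_lt_add_one hy0.le
  have hK1pos : 1 ≤ K1 := by
    rw [hK1]
    exact Nat.succ_le_of_lt (Nat.ceil_pos.2 hy0)
  obtain ⟨M, hM⟩ : ∃ M : ℕ, M + 1 = K1 := ⟨K1 - 1, by omega⟩
  have hMr : (M : ℝ) + 1 = K1 := by exact_mod_cast hM
  have hTM : (4 - c) * (M : ℝ) < ((T * Λ : ℕ) : ℝ) := by
    push_cast
    have h1 : (M : ℝ) < (T : ℝ) * Λ / (4 - c) := by linarith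
    rw [lt_div_iff₀ h4c] at h1
    linarith
  have hMlow : (T : ℝ) * Λ * (4 + c) ≤ 16 * ((M : ℝ) + 1) := by
    rw [hMr]
    rw [div_le_iff₀ h4c] at hK1a
    have h1 : (T : ℝ) * Λ * (4 + c) ≤ (K1 * (4 - c)) * (4 + c) :=
      mul_le_mul_of_nonneg_right hK1a (by linarith)
    have h2 : (K1 * (4 - c)) * (4 + c) = 16 * (K1 : ℝ) - K1 * c ^ 2 := by ring
    have h3 : (0 : ℝ) ≤ K1 * c ^ 2 := by positivity
    linarith
  obtain ⟨K, hK, hex⟩ := hex (1 / 8) (1 / 4) le_rfl (by norm_num) le_rfl (T * Λ) M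
    (Nat.mul_pos hT hΛ1) hTM
  refine ⟨Λ * K, Nat.mul_pos hΛ1 hK, fun η hη => ?_⟩
  filter_upwards [hex 1 η hη, eventually_ge_atTop 1] with N hN hN1 β hβ hinj hadm
  let e : Fin T × Fin Λ ≃ Fin (T * Λ) := finProdFinEquiv
  let e' : Fin Λ × Fin K ≃ Fin (Λ * K) := finProdFinEquiv
  have hN0 : (0 : ℝ) < N := by exact_mod_cast hN1
  obtain ⟨S', σ, hS, hcard⟩ := hN (fun _ _ => (1 : ℤ))
    (fun g i => β (e.symm g).1 (e' ((e.symm g).2, i)))
    (fun _ _ => one_ne_zero)
    (fun _ _ => by simp)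
    (fun g i => by
      obtain ⟨h1, h2⟩ := hβ (e.symm g).1 (e' ((e.symm g).2, i))
      rw [abs_of_nonneg h1]
      have : (0 : ℤ) ≤ N := Nat.cast_nonneg _
      linarith)
    (fun g i y hy _ => by
      obtain ⟨h1, h2⟩ := hβ (e.symm g).1 (e' ((e.symm g).2, i))
      have h3 : (0 : ℝ) ≤ (β (e.symm g).1 (e' ((e.symm g).2, i)) : ℝ) := by exact_mod_cast h1
      have hy0 : 0 ≤ y := le_trans (by positivity) hy
      push_cast
      linarith)
    (by
      rintro ⟨g, i⟩ ⟨g', i'⟩ h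
      simp only [Prod.mk.injEq, true_and] at h
      have h1 := hinj (a₁ := ((e.symm g).1, e' ((e.symm g).2, i)))
        (a₂ := ((e.symm g').1, e' ((e.symm g').2, i'))) h
      simp only [Prod.mk.injEq] at h1
      obtain ⟨h2, h3⟩ := h1
      have h4 := e'.injective h3
      simp only [Prod.mk.injEq] at h4
      have h5 : g = g' := e.symm.injective (Prod.ext h2 h4.1)
      rw [h5, h4.2])
    (fun p hp => by
      obtain ⟨n, hn⟩ := hadm p hp
      exact ⟨n, fun g i => by rw [one_mul]; exact hn _ _⟩)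
  set F : Fin T → Finset (Fin Λ) := fun w => univ.filter (fun t => e (w, t) ∈ S') with hF
  have hSsum : S'.card = ∑ w, (F w).card := by
    rw [card_eq_sum_card_fiberwise (f := fun g => (e.symm g).1) (t := univ) (fun _ _ => by simp)]
    refine sum_congr rfl fun w _ => ?_
    symm
    apply card_bij (fun t _ => e (w, t))
    · intro t ht
      rw [mem_filter]
      refine ⟨(mem_filter.1 ht).2, by simp⟩
    · intro t _ t' _ h
      have := e.injective h
      simpa using this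
    · intro g hg
      obtain ⟨h1, h2⟩ := mem_filter.1 hg
      refine ⟨(e.symm g).2, mem_filter.2 ⟨mem_univ _, ?_⟩, ?_⟩
      · rw [← h2, Prod.mk.eta, Equiv.apply_symm_apply]
        exact h1
      · rw [← h2, Prod.mk.eta, Equiv.apply_symm_apply]
  have hFle : ∀ w, (F w).card ≤ Λ := fun w => by
    have := card_le_univ (F w)
    simpa using this
  set S : Finset (Fin T) := univ.filter (fun w => m ≤ (F w).card) with hSd
  refine ⟨S, fun w => (F w).image (fun t => e' (t, σ (e (w, t)))), ?_, ?_, ?_⟩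
  · -- the number of the clusters
    have h1 : S'.card ≤ S.card * Λ + T * m := by
      rw [hSsum]
      calc ∑ w, (F w).card ≤ ∑ w, ((if w ∈ S then Λ else 0) + m) := by
            apply sum_le_sum
            intro w _
            by_cases hw : w ∈ S
            · rw [if_pos hw]
              have := hFle w
              omega
            · rw [if_neg hw]
              have : ¬ m ≤ (F w).card := fun h => hw (mem_filter.2 ⟨mem_univ _, h⟩)
              omega
        _ = S.card * Λ + T * m := by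
            rw [sum_add_distrib, sum_const, ← sum_filter, sum_const]
            simp
    have h2 : ((M : ℝ) + 1) ≤ S.card * Λ + T * m := by exact_mod_cast hS.trans h1
    have h3 : (T : ℝ) * Λ * (4 + c) ≤ 16 * ((S.card : ℝ) * Λ + T * m) := by linarith
    have h4 : 16 * ((T : ℝ) * m) ≤ T * (c * Λ) := by nlinarith
    have h5 : (T : ℝ) * Λ ≤ (4 * (S.card : ℝ)) * Λ := by nlinarith
    have h6 : (T : ℝ) ≤ 4 * (S.card : ℝ) := le_of_mul_le_mul_right h5 (by linarith)
    exact_mod_cast h6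
  · intro w hw
    rw [card_image_of_injOn]
    · exact (mem_filter.1 hw).2
    · intro t _ t' _ h
      have := e'.injective h
      simp only [Prod.mk.injEq] at this
      exact this.1
  · refine hcard.trans ?_
    rw [Nat.cast_le]
    apply card_le_card
    intro n hn
    obtain ⟨h1, h2, h3, h4⟩ := mem_filter.1 hn
    refine mem_filter.2 ⟨h1, h2, h3, ?_⟩
    intro w _ i hi
    obtain ⟨t, ht, rfl⟩ := mem_image.1 hi
    have h5 := h4 (e (w, t)) (mem_filter.1 ht).2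
    simpa using h5

end Pool.Agent.K7.H64.IX
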