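import Pool.Agent.H732R3.AbsIP
import Pool.Agent.H732R3.BigQ
import Pool.Agent.K7.H64.IX.Quart
import Pool.Agent.K7.H64.IX.Idx
import Pool.Agent.K7.H64.IX.Loc

/-! Patterns of primes with their indices in given classes, up to a bounded error. -/

set_option autoImplicit false

namespace Pool.Agent.K7.H64.IX

open Finset Filter Topology Pool.Agent.H732R3.BigQ Pool.Agent.H732R3.AbsIP

/-- pigeonhole for big sets -/
theorem big_pigeon {ι : Type*} [Finite ι] {F : Set ℕ} (hF : Big F) (G : ι → Set ℕ)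
    (hcov : F ⊆ ⋃ i, G i) : ∃ i, Big (G i) := by
  classical
  have := Fintype.ofFinite ι
  by_contra hcon
  push Not at hcon
  have h1 : ∀ i, ∃ η : ℝ, 0 < η ∧ ∀ᶠ x : ℝ in atTop,
      ({n : ℕ | n ∈ G i ∧ (n : ℝ) ≤ x}.ncard : ℝ) < x ^ (1 - η) := by
    intro i
    have := hcon i
    unfold Big at this
    push Not at this
    obtain ⟨η, hη, h⟩ := this
    exact ⟨η, hη, h⟩
  choose η hη hlt using h1
  obtain ⟨δ, hδ0, hδ⟩ : ∃ δ : ℝ, 0 < δ ∧ ∀ i, δ ≤ η i := by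
    rcases isEmpty_or_nonempty ι with hι | hι
    · exact ⟨1, one_pos, fun i => (hι.false i).elim⟩
    · obtain ⟨i0, hi0⟩ := Finite.exists_min η
      exact ⟨η i0, hη i0, hi0⟩
  have hall : ∀ᶠ x : ℝ in atTop, ∀ i, ({n : ℕ | n ∈ G i ∧ (n : ℝ) ≤ x}.ncard : ℝ) < x ^ (1 - η i) :=
    eventually_all.2 hlt
  obtain ⟨x, hx2, hx1, hx3, hx4⟩ := ((hF (δ / 2) (by linarith)).and_eventually (hall.and
    (((tendsto_rpow_atTop (show 0 < δ / 2 by linarith)).eventually_gt_atTop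
      ((Fintype.card ι : ℝ))).and (eventually_ge_atTop (1 : ℝ))))).exists
  have hx0 : 0 < x := by linarith
  have h2 : ({n : ℕ | n ∈ F ∧ (n : ℝ) ≤ x}.ncard : ℝ) ≤
      ∑ i, ({n : ℕ | n ∈ G i ∧ (n : ℝ) ≤ x}.ncard : ℝ) := by
    have h3 : {n : ℕ | n ∈ F ∧ (n : ℝ) ≤ x} ⊆ ⋃ i ∈ (univ : Finset ι), {n : ℕ | n ∈ G i ∧ (n : ℝ) ≤ x} := by
      rintro n ⟨hn, hnx⟩
      obtain ⟨i, hi⟩ := Set.mem_iUnion.1 (hcov hn)
      simp only [Finset.mem_univ, Set.iUnion_true, Set.mem_iUnion]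
      exact ⟨i, hi, hnx⟩
    have h4 : (⋃ i ∈ (univ : Finset ι), {n : ℕ | n ∈ G i ∧ (n : ℝ) ≤ x}).Finite := by
      simp only [Finset.mem_univ, Set.iUnion_true]
      exact Set.finite_iUnion fun i => fin_le (G i) x
    have h5 := Set.ncard_le_ncard h3 h4
    have h6 := Finset.set_ncard_biUnion_le (univ : Finset ι) (fun i => {n : ℕ | n ∈ G i ∧ (n : ℝ) ≤ x})
    exact_mod_cast h5.trans h6
  have h3 : ∑ i, ({n : ℕ | n ∈ G i ∧ (n : ℝ) ≤ x}.ncard : ℝ) ≤ ∑ _i : ι, x ^ (1 - δ) := by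
    apply sum_le_sum
    intro i _
    exact (hx1 i).le.trans (Real.rpow_le_rpow_of_exponent_le hx4 (by linarith [hδ i]))
  rw [sum_const, nsmul_eq_mul, card_univ] at h3
  have h4 : x ^ (1 - δ / 2) = x ^ (δ / 2) * x ^ (1 - δ) := by
    rw [← Real.rpow_add hx0]
    congr 1
    ring
  have h5 : (Fintype.card ι : ℝ) * x ^ (1 - δ) < x ^ (δ / 2) * x ^ (1 - δ) :=
    mul_lt_mul_of_pos_right hx3 (by positivity)
  linarith

/-- a fixed family of clusters -/
theorem big_clusters (T m : ℕ) (hT : 1 ≤ T) (hm : 1 ≤ m) : ∃ R : ℕ, 1 ≤ R ∧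
    ∀ β : Fin T → Fin R → ℤ, (∀ w i, 0 ≤ β w i) →
      Function.Injective (fun x : Fin T × Fin R => β x.1 x.2) →
      (∀ p : ℕ, p.Prime → ∃ n : ℤ, ∀ w i, ¬ ((p : ℤ) ∣ n + β w i)) →
      ∃ (S : Finset (Fin T)) (I : Fin T → Finset (Fin R)), T ≤ 4 * S.card ∧ (∀ g ∈ S, m ≤ (I g).card) ∧
        Big {n : ℕ | ∀ g ∈ S, ∀ i ∈ I g, ((n : ℤ) + β g i).toNat.Prime} := by
  classical
  obtain ⟨R, hR, hq⟩ := quarter_clusters T m hT hm
  refine ⟨R, hR, fun β hβ hinj hadm => ?_⟩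
  obtain ⟨B, hB⟩ : ∃ B : ℕ, ∀ w i, β w i ≤ B := by
    refine ⟨∑ w, ∑ i, (β w i).natAbs, fun w i => ?_⟩
    have h1 : (β w i).natAbs ≤ ∑ i, (β w i).natAbs :=
      single_le_sum (f := fun i => (β w i).natAbs) (fun _ _ => Nat.zero_le _) (mem_univ i)
    have h2 : ∑ i, (β w i).natAbs ≤ ∑ w, ∑ i, (β w i).natAbs :=
      single_le_sum (f := fun w => ∑ i, (β w i).natAbs) (fun _ _ => Nat.zero_le _) (mem_univ w)
    have h3 := Int.le_natAbs (a := β w i)
    have h4 : ((β w i).natAbs : ℤ) ≤ ((∑ w, ∑ i, (β w i).natAbs : ℕ) : ℤ) := by exact_mod_cast h1.trans h2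
    exact h3.trans h4
  set G : Set ℕ := {n : ℕ | ∃ (S : Finset (Fin T)) (I : Fin T → Finset (Fin R)), T ≤ 4 * S.card ∧
    (∀ g ∈ S, m ≤ (I g).card) ∧ ∀ g ∈ S, ∀ i ∈ I g, ((n : ℤ) + β g i).toNat.Prime} with hG
  have hGev : ∀ η : ℝ, 0 < η → ∀ᶠ x : ℝ in atTop, x ^ (1 - η) ≤ ({n : ℕ | n ∈ G ∧ (n : ℝ) ≤ x}.ncard : ℝ) := by
    intro η hη
    obtain ⟨η', hη'0, hη'1, hη'η⟩ : ∃ η' : ℝ, 0 < η' ∧ η' ≤ 1 ∧ η' ≤ η :=
      ⟨min η 1, lt_min hη one_pos, min_le_right _ _, min_le_left _ _⟩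
    have hfl : Tendsto (fun x : ℝ => ⌊x⌋₊) atTop atTop := tendsto_nat_floor_atTop
    filter_upwards [hfl.eventually (hq (η' / 2) (by linarith)), hfl.eventually (eventually_ge_atTop B),
      eventually_ge_atTop (2 : ℝ),
      (tendsto_rpow_atTop (show 0 < η' / 2 by linarith)).eventually_ge_atTop (2 : ℝ)] with x hx hxB hx2 hx3
    obtain ⟨S, I, hS, hI, hcard⟩ := hx β (fun w i => ⟨hβ w i, (hB w i).trans (by exact_mod_cast hxB)⟩) hinj hadm
    have hx0 : 0 < x := by linarith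
    have h1 : x / 2 ≤ (⌊x⌋₊ : ℝ) := by
      have := Nat.lt_floor_add_one x
      linarith
    have h2 : x ^ (1 - η) ≤ x ^ (1 - η') := Real.rpow_le_rpow_of_exponent_le (by linarith) (by linarith)
    have h3 : (x / 2) ^ (1 - η' / 2) ≤ (⌊x⌋₊ : ℝ) ^ (1 - η' / 2) :=
      Real.rpow_le_rpow (by positivity) h1 (by linarith)
    have h4 : x ^ (1 - η') ≤ (x / 2) ^ (1 - η' / 2) := by
      rw [Real.div_rpow hx0.le (by norm_num), le_div_iff₀ (by positivity)]
      have h5 : (2 : ℝ) ^ (1 - η' / 2) ≤ 2 := by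
        calc (2 : ℝ) ^ (1 - η' / 2) ≤ (2 : ℝ) ^ (1 : ℝ) :=
              Real.rpow_le_rpow_of_exponent_le (by norm_num) (by linarith)
          _ = 2 := Real.rpow_one _
      calc x ^ (1 - η') * 2 ^ (1 - η' / 2) ≤ x ^ (1 - η') * x ^ (η' / 2) := by
            apply mul_le_mul_of_nonneg_left (h5.trans hx3) (by positivity)
        _ = x ^ (1 - η' / 2) := by rw [← Real.rpow_add hx0]; congr 1; ring
    refine (h2.trans (h4.trans (h3.trans hcard))).trans ?_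
    rw [← Set.ncard_coe_finset]
    have h6 := Set.ncard_le_ncard (s := (((Icc 1 ⌊x⌋₊).filter (fun n : ℕ => (1 / 8 : ℝ) * (⌊x⌋₊ : ℝ) ≤ n ∧
          (n : ℝ) ≤ 1 / 4 * (⌊x⌋₊ : ℝ) ∧ ∀ g ∈ S, ∀ i ∈ I g, ((n : ℤ) + β g i).toNat.Prime) : Finset ℕ) : Set ℕ))
      (t := {n : ℕ | n ∈ G ∧ (n : ℝ) ≤ x}) (by
        intro n hn
        rw [mem_coe, mem_filter, mem_Icc] at hn
        refine ⟨⟨S, I, hS, hI, hn.2.2.2⟩, ?_⟩
        have h7 : (n : ℝ) ≤ (⌊x⌋₊ : ℝ) := by exact_mod_cast hn.1.2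
        exact h7.trans (Nat.floor_le hx0.le)) (fin_le G x)
    exact_mod_cast h6
  obtain ⟨⟨S, I⟩, hbig⟩ := big_of_cover
    (fun z : Finset (Fin T) × (Fin T → Finset (Fin R)) => {n : ℕ | (T ≤ 4 * z.1.card ∧
      (∀ g ∈ z.1, m ≤ (z.2 g).card)) ∧ ∀ g ∈ z.1, ∀ i ∈ z.2 g, ((n : ℤ) + β g i).toNat.Prime}) G hGev (by
    rintro n ⟨S, I, h1, h2, h3⟩
    exact Set.mem_iUnion.2 ⟨(S, I), ⟨h1, h2⟩, h3⟩)
  obtain ⟨n₀, hn₀⟩ := hbig.infinite.nonempty
  exact ⟨S, I, hn₀.1.1, hn₀.1.2, hbig.mono fun n hn => hn.2⟩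

/-- the primes `P` with `idx P ≡ s₀` for which there are primes with indices `≡ s i` near `P + a i` -/
def Near (n D : ℕ) {k : ℕ} (s₀ : ℕ) (s : Fin k → ℕ) (a : Fin k → ℤ) : Set ℕ :=
  {P | P.Prime ∧ idx P % n = s₀ % n ∧ ∀ i, ∃ P' : ℕ, P'.Prime ∧ idx P' % n = s i % n ∧
    |(P' : ℤ) - P - a i| ≤ D}

theorem near_good (n k : ℕ) (hn : 1 ≤ n) : ∃ C D : ℕ, ∀ v : Fin k → ℤ, ∃ a : Fin k → ℤ,
    (∀ i, |a i - v i| ≤ C) ∧ ∀ (s₀ : ℕ) (s : Fin k → ℕ), Big (Near n D s₀ s a) := by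
  classical
  obtain ⟨T, hT⟩ := syndetic k
  rcases Nat.eq_zero_or_pos T with hT0 | hT0
  · -- no clusters: every predicate is good
    subst hT0
    obtain ⟨C, hC⟩ := hT (fun _ => False) ⟨1, le_rfl, fun pos => ⟨∅, fun g => g.elim0, by simp,
      fun g => g.elim0, fun g => g.elim0, fun g0 _ => g0.elim0⟩⟩
    obtain ⟨a, -, -, -, h⟩ := hC (fun _ => 0)
    exact h.elim
  obtain ⟨R, hR, hbig⟩ := big_clusters T n hT0 hn
  obtain ⟨W, hWd⟩ : ∃ W : ℕ, W = (T * R).factorial := ⟨_, rfl⟩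
  have hW1 : 1 ≤ W := by rw [hWd]; exact Nat.succ_le_of_lt (Nat.factorial_pos _)
  obtain ⟨Q, hQ⟩ : ∃ Q : ℕ, Q = W * (T * R + 1) := ⟨_, rfl⟩
  have hQ1 : 1 ≤ Q := by rw [hQ]; exact Nat.mul_pos hW1 (by omega)
  obtain ⟨ix, hix⟩ : ∃ ix : Fin T × Fin R → ℕ, ix = fun x => (finProdFinEquiv x : ℕ) := ⟨_, rfl⟩
  have hixlt : ∀ x, ix x < T * R := fun x => by rw [hix]; exact (finProdFinEquiv x).2
  have hixinj : Function.Injective ix := by
    rw [hix]
    exact fun x y h => finProdFinEquiv.injective (Fin.ext h)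
  have hoff : ∀ x, W * ix x < Q := by
    intro x
    rw [hQ]
    exact Nat.mul_lt_mul_of_pos_left (by have := hixlt x; omega) hW1
  obtain ⟨C, hC⟩ := hT (fun a => ∀ (s₀ : ℕ) (s : Fin k → ℕ), Big (Near n (2 * Q) s₀ s a)) (by
    refine ⟨Q, hQ1, fun pos => ?_⟩
    obtain ⟨sh, hsh⟩ : ∃ sh : ℕ, sh = Q * (∑ g, (pos g).natAbs + 1) := ⟨_, rfl⟩
    have hshpos : ∀ g, 0 ≤ (sh : ℤ) + Q * pos g := by
      intro g
      have h1 : (pos g).natAbs ≤ ∑ g, (pos g).natAbs :=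
        single_le_sum (f := fun g => (pos g).natAbs) (fun _ _ => Nat.zero_le _) (mem_univ g)
      have h2 : -(((pos g).natAbs : ℕ) : ℤ) ≤ pos g := by
        have := neg_abs_le (pos g)
        rw [Int.natCast_natAbs]
        exact this
      have h3 : (((pos g).natAbs : ℕ) : ℤ) ≤ ((∑ g, (pos g).natAbs : ℕ) : ℤ) := by exact_mod_cast h1
      rw [hsh]
      have h4 : ((Q * (∑ g, (pos g).natAbs + 1) : ℕ) : ℤ) + Q * pos g =
          Q * (((∑ g, (pos g).natAbs : ℕ) : ℤ) + 1 + pos g) := by push_cast; ring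
      rw [h4]
      apply mul_nonneg (Nat.cast_nonneg _)
      linarith
    obtain ⟨β, hβ⟩ : ∃ β : Fin T → Fin R → ℤ, β = fun g i => (sh : ℤ) + Q * pos g + W * (ix (g, i) : ℕ) := ⟨_, rfl⟩
    have hβinj : Function.Injective (fun x : Fin T × Fin R => β x.1 x.2) := by
      rintro ⟨g, i⟩ ⟨g', i'⟩ h
      have h1 : (sh : ℤ) + Q * pos g + W * (ix (g, i) : ℕ) = (sh : ℤ) + Q * pos g' + W * (ix (g', i') : ℕ) := by
        have := h
        rw [hβ] at this
        exact this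
      have h2 : (Q : ℤ) ∣ ((W * ix (g, i) : ℕ) : ℤ) - ((W * ix (g', i') : ℕ) : ℤ) :=
        ⟨pos g' - pos g, by push_cast; linear_combination h1⟩
      have h3 : ((W * ix (g, i) : ℕ) : ℤ) - ((W * ix (g', i') : ℕ) : ℤ) = 0 := by
        apply Int.eq_zero_of_abs_lt_dvd h2
        have a1 := hoff (g, i)
        have a2 := hoff (g', i')
        rw [abs_lt]
        constructor <;> omega
      have h4 : W * ix (g, i) = W * ix (g', i') := by
        have := sub_eq_zero.1 h3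
        exact_mod_cast this
      exact hixinj (Nat.eq_of_mul_eq_mul_left hW1 h4)
    have hβ0 : ∀ w i, 0 ≤ β w i := by
      intro w i
      rw [hβ]
      have := hshpos w
      have h2 : (0 : ℤ) ≤ W * (ix (w, i) : ℕ) := by positivity
      simp only
      linarith
    obtain ⟨S, I, hS, hI, hB⟩ := hbig β hβ0 hβinj (by
      intro p hp
      by_cases hpT : p ≤ T * R
      · refine ⟨1, fun g i hd => ?_⟩
        have hpW : p ∣ W := by rw [hWd]; exact Nat.dvd_factorial hp.pos hpT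
        have hpQ : (p : ℤ) ∣ (Q : ℤ) := by
          rw [hQ]
          exact_mod_cast Dvd.dvd.mul_right hpW _
        have hpb : (p : ℤ) ∣ β g i := by
          rw [hβ]
          simp only
          refine dvd_add (dvd_add ?_ (Dvd.dvd.mul_right hpQ _)) (Dvd.dvd.mul_right (by exact_mod_cast hpW) _)
          rw [hsh]
          push_cast
          exact Dvd.dvd.mul_right hpQ _
        exact (Nat.prime_iff_prime_int.1 hp).not_isUnit (isUnit_of_dvd_one ((dvd_add_left hpb).1 hd))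
      · obtain ⟨z, hz⟩ := exists_avoid hp.pos (show Fintype.card (Fin T × Fin R) < p by
          simp only [Fintype.card_prod, Fintype.card_fin]; omega) (fun x : Fin T × Fin R => β x.1 x.2)
        exact ⟨z, fun g i => hz (g, i)⟩)
    refine ⟨S, fun g => Q * pos g + W * (ix (g, ⟨0, hR⟩) : ℕ), hS, ?_, ?_, ?_⟩
    · intro g g' h
      have h1 : (fun x : Fin T × Fin R => β x.1 x.2) (g, ⟨0, hR⟩) =
          (fun x : Fin T × Fin R => β x.1 x.2) (g', ⟨0, hR⟩) := by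
        have h2 : (Q : ℤ) * pos g + W * (ix (g, ⟨0, hR⟩) : ℕ) = Q * pos g' + W * (ix (g', ⟨0, hR⟩) : ℕ) := h
        simp only
        rw [hβ]
        simp only
        linarith
      exact congrArg Prod.fst (hβinj h1)
    · intro g
      have h1 := hoff (g, ⟨0, hR⟩)
      have h2 : ((W * ix (g, ⟨0, hR⟩) : ℕ) : ℤ) < Q := by exact_mod_cast h1
      push_cast at h2
      constructor
      · have : (0 : ℤ) ≤ W * (ix (g, ⟨0, hR⟩) : ℕ) := by positivity
        linarith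
      · linarith
    · intro g0 hg0 g hg s₀ s
      -- the primes in the windows
      have hwin : ∀ N : ℕ, (∀ g ∈ S, ∀ i ∈ I g, ((N : ℤ) + β g i).toNat.Prime) → ∀ g ∈ S, ∀ t : ℕ,
          ∃ P : ℕ, P.Prime ∧ idx P % n = t % n ∧ (N : ℤ) + (sh + Q * pos g) ≤ P ∧
            (P : ℤ) ≤ N + (sh + Q * pos g) + Q := by
        intro N hN g hg t
        obtain ⟨u, hu⟩ : ∃ u : ℕ, (u : ℤ) = (N : ℤ) + (sh + Q * pos g) := by
          refine ⟨((N : ℤ) + (sh + Q * pos g)).toNat, Int.toNat_of_nonneg ?_⟩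
          have := hshpos g
          positivity
        have hcard : n ≤ ((Icc u (u + Q)).filter Nat.Prime).card := by
          refine (hI g hg).trans ?_
          apply card_le_card_of_injOn (fun i => u + W * ix (g, i))
          · intro i hi
            have h1 := hN g hg i hi
            have h2 : ((N : ℤ) + β g i).toNat = u + W * ix (g, i) := by
              have h3 : (N : ℤ) + β g i = ((u + W * ix (g, i) : ℕ) : ℤ) := by
                rw [hβ]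
                push_cast
                rw [hu]
                ring
              rw [h3, Int.toNat_natCast]
            rw [h2] at h1
            have h4 := hoff (g, i)
            show u + W * ix (g, i) ∈ ((((Icc u (u + Q)).filter Nat.Prime) : Finset ℕ) : Set ℕ)
            rw [mem_coe, mem_filter, mem_Icc]
            exact ⟨⟨by omega, by omega⟩, h1⟩
          · intro i _ j _ h
            have h1 : u + W * ix (g, i) = u + W * ix (g, j) := h
            have h2 : W * ix (g, i) = W * ix (g, j) := by omega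
            have h3 := hixinj (Nat.eq_of_mul_eq_mul_left hW1 h2)
            exact congrArg Prod.snd h3
        obtain ⟨P, hP1, hP2, hP3⟩ := exists_idx hn t u Q hcard
        have hP := mem_Icc.1 hP1
        refine ⟨P, hP2, hP3, ?_, ?_⟩
        · rw [← hu]; exact_mod_cast hP.1
        · rw [← hu]; exact_mod_cast hP.2
      -- pigeonhole on the position of the first prime
      obtain ⟨o, ho⟩ := big_pigeon hB (fun o : Fin (Q + 1) => {N : ℕ | (N : ℤ) + (sh + Q * pos g0) + (o : ℕ) ≥ 0 ∧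
        ((N : ℤ) + (sh + Q * pos g0) + (o : ℕ)).toNat ∈ Near n (2 * Q) s₀ s
          (fun i => (Q * pos (g i) + W * (ix (g i, ⟨0, hR⟩) : ℕ)) - (Q * pos g0 + W * (ix (g0, ⟨0, hR⟩) : ℕ)))}) (by
        intro N hN
        obtain ⟨P, h1, h2, h3, h4⟩ := hwin N hN g0 hg0 s₀
        rw [Set.mem_iUnion]
        refine ⟨⟨((P : ℤ) - (N + (sh + Q * pos g0))).toNat, by omega⟩, ?_⟩
        have h5 : (N : ℤ) + (sh + Q * pos g0) + (((P : ℤ) - (N + (sh + Q * pos g0))).toNat : ℕ) = P := by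
          rw [Int.toNat_of_nonneg (by linarith)]
          ring
        show (N : ℤ) + (sh + Q * pos g0) + (((P : ℤ) - (N + (sh + Q * pos g0))).toNat : ℕ) ≥ 0 ∧
          ((N : ℤ) + (sh + Q * pos g0) + (((P : ℤ) - (N + (sh + Q * pos g0))).toNat : ℕ)).toNat ∈ _
        rw [h5, Int.toNat_natCast]
        refine ⟨Nat.cast_nonneg _, h1, h2, fun i => ?_⟩
        obtain ⟨P', h6, h7, h8, h9⟩ := hwin N hN (g i) (hg i) (s i)
        refine ⟨P', h6, h7, ?_⟩
        have e1 : ((W * ix (g i, ⟨0, hR⟩) : ℕ) : ℤ) < Q := by exact_mod_cast hoff _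
        have e2 : ((W * ix (g0, ⟨0, hR⟩) : ℕ) : ℤ) < Q := by exact_mod_cast hoff _
        have e3 : (0 : ℤ) ≤ ((W * ix (g i, ⟨0, hR⟩) : ℕ) : ℤ) := Nat.cast_nonneg _
        have e4 : (0 : ℤ) ≤ ((W * ix (g0, ⟨0, hR⟩) : ℕ) : ℤ) := Nat.cast_nonneg _
        push_cast at e1 e2 e3 e4 ⊢
        rw [abs_le]
        constructor <;> linarith)
      refine ho.affine 1 ((sh : ℤ) + Q * pos g0 + (o : ℕ)) le_rfl
        (fun N => ((N : ℤ) + (sh + Q * pos g0) + (o : ℕ)).toNat) ?_ ?_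
      · intro N hN
        rw [Int.toNat_of_nonneg hN.1]
        push_cast
        ring
      · intro N hN
        exact hN.2)
  refine ⟨C, 2 * Q, fun v => ?_⟩
  obtain ⟨a, -, -, h1, h2⟩ := hC v
  exact ⟨a, h1, h2⟩

/-- exact positions -/
theorem exact_good (n k : ℕ) (hn : 1 ≤ n) : ∃ C : ℕ, ∀ (v : Fin k → ℤ) (s₀ : ℕ) (s : Fin k → ℕ),
    ∃ a : Fin k → ℤ, (∀ i, |a i - v i| ≤ C) ∧
      Big {P : ℕ | P.Prime ∧ idx P % n = s₀ % n ∧ ∀ i, ∃ P' : ℕ, P'.Prime ∧ idx P' % n = s i % n ∧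
        (P' : ℤ) = P + a i} := by
  classical
  obtain ⟨C, D, h⟩ := near_good n k hn
  refine ⟨C + D, fun v s₀ s => ?_⟩
  obtain ⟨a, ha, hbig⟩ := h v
  obtain ⟨o, ho⟩ := big_pigeon (hbig s₀ s) (fun o : Fin k → Fin (2 * D + 1) => {P : ℕ | P.Prime ∧
    idx P % n = s₀ % n ∧ ∀ i, ∃ P' : ℕ, P'.Prime ∧ idx P' % n = s i % n ∧
        (P' : ℤ) = P + (a i + ((o i : ℕ) : ℤ) - D)}) (by
    rintro P ⟨h1, h2, h3⟩
    choose P' h4 h5 h6 using h3
    rw [Set.mem_iUnion]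
    have h7 : ∀ i, ((P' i : ℤ) - P - a i + D).toNat < 2 * D + 1 := by
      intro i
      have := abs_le.1 (h6 i)
      omega
    refine ⟨fun i => ⟨((P' i : ℤ) - P - a i + D).toNat, h7 i⟩, h1, h2, fun i => ⟨P' i, h4 i, h5 i, ?_⟩⟩
    have := abs_le.1 (h6 i)
    show (P' i : ℤ) = P + (a i + ((((P' i : ℤ) - P - a i + D).toNat : ℕ) : ℤ) - D)
    rw [Int.toNat_of_nonneg (by omega)]
    ring)
  refine ⟨fun i => a i + ((o i : ℕ) : ℤ) - D, fun i => ?_, ho⟩
  have h1 := abs_le.1 (ha i)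
  have h2 := (o i).2
  rw [abs_le]
  push_cast
  constructor <;> omega

end Pool.Agent.K7.H64.IX
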