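import Pool.Agent.K7.H64.IX.Two
import Pool.Agent.K7.H64.IX.Loc
import Pool.Agent.K7.H64.IX.Win

/-! Two of four clusters contain primes with their indices in any given classes. -/

set_option autoImplicit false

namespace Pool.Agent.K7.H64.IX

open Finset Filter Topology

/-- The congruences which make all the other positions near the four clusters composite. -/
theorem frameG {R V L l₀ : ℕ} (hV : ∀ p : ℕ, p.Prime → p ≤ 4 * R → p ∣ V)
    (hL : V * R ≤ L) (hl₀ : L ≤ l₀) (b : Fin 4 → ℕ)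
    (hex : ∀ w w' : Fin 4, b w < b w' → ∀ t ∈ Icc (-(L : ℤ)) L, ∀ k ∈ range (4 * (L + 1)),
      ¬ ((pl l₀ k : ℕ) : ℤ) ∣ 2 * (b w' : ℤ) - 2 * b w + t)
    (he3 : ∃ z : ℤ, ∀ w, ¬ (3 : ℤ) ∣ z + ((2 * b w : ℕ) : ℤ)) :
    ∃ Q r : ℕ, 1 ≤ Q ∧ Q ≤ ∏ k ∈ range (4 * (L + 1)), pl l₀ k ∧ r < Q ∧
      (∀ p : ℕ, p.Prime → ∃ n : ℤ, ∀ (w : Fin 4) (i : Fin R),
        ¬ (p : ℤ) ∣ Q * n + ((r + 2 * b w + V * i : ℕ) : ℤ)) ∧
      ∀ (w : Fin 4) (y : ℕ), y ≤ L → (∀ i : Fin R, y ≠ V * i) →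
        ∃ q : ℕ, q.Prime ∧ q ≤ ∏ k ∈ range (4 * (L + 1)), pl l₀ k ∧ q ∣ Q ∧ q ∣ r + 2 * b w + y := by
  classical
  obtain ⟨E, hE⟩ : ∃ E : ℕ → ℕ, E = fun w => if h : w < 4 then b ⟨w, h⟩ else 0 := ⟨_, rfl⟩
  obtain ⟨Y, hY⟩ : ∃ Y : Finset ℕ, Y = (range (4 * (L + 1))).filter
    (fun k => ∀ i : Fin R, k % (L + 1) ≠ V * i) := ⟨_, rfl⟩
  obtain ⟨P, hP⟩ : ∃ P : ℕ → ℕ, P = fun k => 2 * E (k / (L + 1)) + k % (L + 1) := ⟨_, rfl⟩
  have hpos : ∀ k, 0 < pl l₀ k := fun k => (pl_prime l₀ k).pos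
  have hcop : Set.Pairwise (↑Y : Set ℕ) (Function.onFun Nat.Coprime (pl l₀)) := by
    intro a _ b _ hab
    exact (Nat.coprime_primes (pl_prime _ _) (pl_prime _ _)).2 (fun h => hab (pl_inj l₀ h))
  have hne : ∀ k ∈ Y, pl l₀ k ≠ 0 := fun k _ => (hpos k).ne'
  obtain ⟨r, hr, hrlt⟩ : ∃ r : ℕ, (∀ k ∈ Y, r ≡ pl l₀ k - P k % pl l₀ k [MOD pl l₀ k]) ∧
      r < ∏ k ∈ Y, pl l₀ k := by
    refine ⟨(Nat.chineseRemainderOfFinset (fun k => pl l₀ k - P k % pl l₀ k) (pl l₀) Y hne hcop : ℕ), ?_, ?_⟩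
    · exact (Nat.chineseRemainderOfFinset (fun k => pl l₀ k - P k % pl l₀ k) (pl l₀) Y hne hcop).2
    · exact Nat.chineseRemainderOfFinset_lt_prod _ _ hne hcop
  have hdiv : ∀ k ∈ Y, pl l₀ k ∣ r + P k := by
    intro k hk
    have h1 : r + P k ≡ (pl l₀ k - P k % pl l₀ k) + P k [MOD pl l₀ k] := Nat.ModEq.add_right _ (hr k hk)
    have h2 : pl l₀ k - P k % pl l₀ k + P k = pl l₀ k * (1 + P k / pl l₀ k) := by
      have h3 := Nat.mod_lt (P k) (hpos k)
      have h4 := Nat.div_add_mod (P k) (pl l₀ k)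
      have h5 : pl l₀ k * (1 + P k / pl l₀ k) = pl l₀ k + pl l₀ k * (P k / pl l₀ k) := by ring
      omega
    rw [h2] at h1
    exact (Nat.modEq_zero_iff_dvd.1 (h1.trans (Nat.modEq_zero_iff_dvd.2 (Dvd.intro _ rfl))))
  have hYsub : Y ⊆ range (4 * (L + 1)) := by rw [hY]; exact filter_subset _ _
  have hQ1 : 1 ≤ ∏ k ∈ Y, pl l₀ k := Nat.succ_le_of_lt (prod_pos fun k _ => hpos k)
  have hQ2 : ∏ k ∈ Y, pl l₀ k ≤ ∏ k ∈ range (4 * (L + 1)), pl l₀ k :=
    prod_le_prod_of_subset_of_one_le' hYsub fun k _ _ => hpos k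
  have hkk : ∀ (w : Fin 4) (y : ℕ), y ≤ L → ((w : ℕ) * (L + 1) + y) / (L + 1) = w ∧
      ((w : ℕ) * (L + 1) + y) % (L + 1) = y ∧ (w : ℕ) * (L + 1) + y < 4 * (L + 1) := by
    intro w y hy
    refine ⟨?_, ?_, ?_⟩
    · rw [mul_comm, Nat.mul_add_div (by omega), Nat.div_eq_of_lt (by omega)]
      simp
    · rw [mul_comm, Nat.mul_add_mod]
      exact Nat.mod_eq_of_lt (by omega)
    · have hw := w.2
      have : (w : ℕ) * (L + 1) ≤ 3 * (L + 1) := Nat.mul_le_mul_right _ (by omega)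
      omega
  have hEw : ∀ w : Fin 4, E (w : ℕ) = b w := by
    intro w
    rw [hE]
    simp
  refine ⟨∏ k ∈ Y, pl l₀ k, r, hQ1, hQ2, hrlt, ?_, ?_⟩
  · intro p hp
    by_cases hpQ : p ∣ ∏ k ∈ Y, pl l₀ k
    · obtain ⟨k, hk, hpk⟩ := (Prime.dvd_finsetProd_iff hp.prime _).1 hpQ
      have hpk' : p = pl l₀ k := (Nat.prime_dvd_prime_iff_eq hp (pl_prime _ _)).1 hpk
      refine ⟨0, fun w i hd => ?_⟩
      rw [mul_zero, zero_add] at hd
      have hk1 := hYsub hk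
      have hk2 : ∀ i : Fin R, k % (L + 1) ≠ V * i := by
        rw [hY] at hk
        exact (mem_filter.1 hk).2
      have hkw : k / (L + 1) < 4 := Nat.div_lt_of_lt_mul (by rw [mul_comm]; exact mem_range.1 hk1)
      have hPk : P k = 2 * b ⟨k / (L + 1), hkw⟩ + k % (L + 1) := by
        rw [hP]
        simp only
        rw [hE]
        simp only [hkw, dif_pos]
      have hd2 : (p : ℤ) ∣ ((r + P k : ℕ) : ℤ) := by
        rw [hpk']
        exact_mod_cast hdiv k hk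
      have hpl := pl_gt l₀ k
      rw [← hpk'] at hpl
      have hyL : k % (L + 1) ≤ L := by
        have := Nat.mod_lt k (show 0 < L + 1 by omega)
        omega
      have hoL : V * (i : ℕ) ≤ L := by
        refine le_trans (Nat.mul_le_mul_left _ i.2.le) hL
      have hd3 := dvd_sub hd hd2
      rw [hPk] at hd3
      obtain ⟨w', hw'⟩ : ∃ w' : Fin 4, w' = ⟨k / (L + 1), hkw⟩ := ⟨_, rfl⟩
      rw [← hw'] at hd3
      have hki := hk2 i
      obtain ⟨y, hy⟩ : ∃ y, y = k % (L + 1) := ⟨_, rfl⟩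
      obtain ⟨o, ho⟩ : ∃ o, o = V * (i : ℕ) := ⟨_, rfl⟩
      rw [← hy] at hd3 hki hyL
      rw [← ho] at hd3 hki hoL
      rcases lt_trichotomy (b w) (b w') with hlt | heq | hgt
      · apply hex w w' hlt ((y : ℤ) - o) (mem_Icc.2 ⟨by omega, by omega⟩) k hk1
        rw [← hpk']
        have h5 : (((r + 2 * b w + o : ℕ) : ℤ) - ((r + (2 * b w' + y) : ℕ) : ℤ)) =
            -(2 * (b w' : ℤ) - 2 * b w + ((y : ℤ) - o)) := by
          push_cast
          ring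
        rw [h5, dvd_neg] at hd3
        exact hd3
      · have h5 : (((r + 2 * b w + o : ℕ) : ℤ) - ((r + (2 * b w' + y) : ℕ) : ℤ)) =
            (o : ℤ) - y := by
          rw [heq]
          push_cast
          ring
        rw [h5] at hd3
        have h6 : (o : ℤ) - y = 0 := by
          apply Int.eq_zero_of_abs_lt_dvd hd3
          rw [abs_lt]
          constructor <;> omega
        exact hki (by omega)
      · apply hex w' w hgt ((o : ℤ) - y) (mem_Icc.2 ⟨by omega, by omega⟩) k hk1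
        rw [← hpk']
        have h5 : (((r + 2 * b w + o : ℕ) : ℤ) - ((r + (2 * b w' + y) : ℕ) : ℤ)) =
            2 * (b w : ℤ) - 2 * b w' + ((o : ℤ) - y) := by
          push_cast
          ring
        rw [h5] at hd3
        exact hd3
    · have hcopQ : IsCoprime ((∏ k ∈ Y, pl l₀ k : ℕ) : ℤ) (p : ℤ) := by
        rw [Nat.isCoprime_iff_coprime]
        exact ((Nat.Prime.coprime_iff_not_dvd hp).2 hpQ).symm
      obtain ⟨z, hz⟩ : ∃ z : ℤ, ∀ (w : Fin 4) (i : Fin R),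
          ¬ (p : ℤ) ∣ z + ((2 * b w + V * i : ℕ) : ℤ) := by
        by_cases hp4 : p ≤ 4 * R
        · have hpW := hV p hp hp4
          have hred : ∀ z : ℤ, (∀ w, ¬ (p : ℤ) ∣ z + ((2 * b w : ℕ) : ℤ)) →
              ∀ (w : Fin 4) (i : Fin R), ¬ (p : ℤ) ∣ z + ((2 * b w + V * i : ℕ) : ℤ) := by
            intro z hz w i hd
            apply hz w
            have h1 : (p : ℤ) ∣ ((V * i : ℕ) : ℤ) := by
              exact_mod_cast Dvd.dvd.mul_right hpW _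
            have h2 : z + ((2 * b w + V * i : ℕ) : ℤ) =
                (z + ((2 * b w : ℕ) : ℤ)) + ((V * i : ℕ) : ℤ) := by
              push_cast; ring
            rw [h2] at hd
            exact (dvd_add_left h1).1 hd
          by_cases hp3 : p = 3
          · subst hp3
            obtain ⟨z, hz⟩ := he3
            exact ⟨z, hred z (fun w => by exact_mod_cast hz w)⟩
          · by_cases hp2 : p = 2
            · subst hp2
              refine ⟨1, hred 1 (fun w hd => ?_)⟩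
              have h2 : ((2 : ℕ) : ℤ) ∣ ((2 * b w : ℕ) : ℤ) := by
                exact_mod_cast Dvd.intro _ rfl
              have h3 := (dvd_add_left h2).1 hd
              norm_num at h3
            · have hp5 : 5 ≤ p := by
                have h2 := hp.two_le
                by_contra hlt
                have h4 : p = 4 := by omega
                rw [h4] at hp
                exact absurd hp (by norm_num)
              obtain ⟨z, hz⟩ := exists_avoid hp.pos (show Fintype.card (Fin 4) < p by simp; omega)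
                (fun w : Fin 4 => ((2 * b w : ℕ) : ℤ))
              exact ⟨z, hred z hz⟩
        · push Not at hp4
          obtain ⟨z, hz⟩ := exists_avoid hp.pos (show Fintype.card (Fin 4 × Fin R) < p by simp; omega)
            (fun x : Fin 4 × Fin R => ((2 * b x.1 + V * x.2 : ℕ) : ℤ))
          exact ⟨z, fun w i => hz (w, i)⟩
      obtain ⟨s, t, hst⟩ := hcopQ
      refine ⟨s * (z - r), fun w i hd => hz w i ?_⟩
      have h1 : ((∏ k ∈ Y, pl l₀ k : ℕ) : ℤ) * (s * (z - r)) +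
          ((r + 2 * b w + V * i : ℕ) : ℤ) =
          (z + ((2 * b w + V * i : ℕ) : ℤ)) - (p : ℤ) * (t * (z - r)) := by
        have h2 : s * ((∏ k ∈ Y, pl l₀ k : ℕ) : ℤ) = 1 - t * p := by linarith
        calc _ = (s * ((∏ k ∈ Y, pl l₀ k : ℕ) : ℤ)) * (z - r) +
              ((r + 2 * b w + V * i : ℕ) : ℤ) := by ring
          _ = _ := by rw [h2]; push_cast; ring
      rw [h1] at hd
      have h3 := dvd_add hd (Dvd.intro (t * (z - r)) (rfl : (p : ℤ) * (t * (z - r)) = _))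
      rwa [sub_add_cancel] at h3
  · intro w y hy hyo
    obtain ⟨h1, h2, h3⟩ := hkk w y hy
    have hkY : (w : ℕ) * (L + 1) + y ∈ Y := by
      rw [hY]
      refine mem_filter.2 ⟨mem_range.2 h3, fun i => ?_⟩
      rw [h2]
      exact hyo i
    refine ⟨pl l₀ ((w : ℕ) * (L + 1) + y), pl_prime _ _, ?_, dvd_prod_of_mem _ hkY, ?_⟩
    · have h4 : pl l₀ ((w : ℕ) * (L + 1) + y) ∣ ∏ k ∈ range (4 * (L + 1)), pl l₀ k :=
        dvd_prod_of_mem _ (hYsub hkY)
      exact Nat.le_of_dvd (prod_pos fun k _ => hpos k) h4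
    · have h4 := hdiv _ hkY
      have h5 : r + P ((w : ℕ) * (L + 1) + y) = r + 2 * b w + y := by
        rw [hP]
        simp only
        rw [h1, h2, hEw]
        ring
      rwa [h5] at h4

open Classical in
/-- **The two clusters.** -/
theorem point (m : ℕ) (hm : 1 ≤ m) : ∃ R : ℕ, 1 ≤ R ∧ ∀ L l₀ : ℕ, L ≤ l₀ → ∀ Q₀ : ℕ,
    Q₀ = ∏ k ∈ range (4 * (L + 1)), pl l₀ k → ∀ η : ℝ, 0 < η → η ≤ 1 →
    ∀ᶠ X : ℕ in atTop, ∀ (V : ℕ) (b : Fin 4 → ℕ), 1 ≤ V →
      (∀ p : ℕ, p.Prime → p ≤ 4 * R → p ∣ V) → V * R ≤ L → StrictMono b →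
      (∀ w, 500 * Q₀ * b w ≤ X) →
      (∀ w w' : Fin 4, w < w' → ∀ t ∈ Icc (-(L : ℤ)) L, ∀ k ∈ range (4 * (L + 1)),
        ¬ ((pl l₀ k : ℕ) : ℤ) ∣ 2 * (b w' : ℤ) - 2 * b w + t) →
      (∃ z : ℤ, ∀ w, ¬ (3 : ℤ) ∣ z + ((2 * b w : ℕ) : ℤ)) →
      ∀ s s' : Fin 4 → Fin 4 → ℕ, ∃ (w₁ w₂ : Fin 4) (i₁ i₂ : Fin R), w₁ < w₂ ∧
        ∀ h : ℕ, (h : ℤ) = 2 * (b w₂ : ℤ) - 2 * b w₁ + V * ((i₂ : ℕ) : ℤ) - V * ((i₁ : ℕ) : ℤ) →
          (X : ℝ) ^ (1 - η) < cnt m (s w₁ w₂) (s' w₁ w₂) h ((X : ℝ) / ((2000 * Q₀ : ℕ) : ℝ)) X := by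
  obtain ⟨R, hR, htwo⟩ := two_clusters m hm
  refine ⟨R, hR, fun L l₀ hLl₀ Q₀ hQ₀ η hη hη1 => ?_⟩
  have hQ₀1 : 1 ≤ Q₀ := by
    rw [hQ₀]; exact Nat.succ_le_of_lt (prod_pos fun k _ => (pl_prime l₀ k).pos)
  have hdivt : Tendsto (fun X : ℕ => X / Q₀) atTop atTop := by
    refine tendsto_atTop.2 fun B => ?_
    filter_upwards [eventually_ge_atTop (B * Q₀)] with X hX
    exact (Nat.le_div_iff_mul_le (by omega)).2 hX
  filter_upwards [hdivt.eventually (htwo Q₀ (η / 2) (by positivity)), scale Q₀ R hQ₀1 hR η hη hη1,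
    eventually_ge_atTop 1, hdivt.eventually (eventually_ge_atTop (1000 * (Q₀ + L) + 8))]
    with X hN hsc hX1 hNbig V b hV1 hV hVL hb hbX hex h3 s s'
  obtain ⟨N, hNdef⟩ : ∃ N : ℕ, N = X / Q₀ := ⟨_, rfl⟩
  rw [← hNdef] at hN hsc hNbig
  have hNX : Q₀ * N ≤ X := by rw [hNdef]; exact Nat.mul_div_le X Q₀
  have hXN : X < Q₀ * (N + 1) := by
    have := Nat.div_add_mod X Q₀
    have h6 := Nat.mod_lt X (show 0 < Q₀ by omega)
    have h7 : Q₀ * (N + 1) = Q₀ * N + Q₀ := by ring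
    rw [hNdef] at h7 ⊢
    omega
  obtain ⟨Q, r, hQ1, hQQ, hrQ, hadm, hcov⟩ := frameG hV hVL hLl₀ b
    (fun w w' hww => hex w w' (hb.lt_iff_lt.1 hww)) h3
  rw [← hQ₀] at hQQ hcov
  have hbN : ∀ w, 500 * b w ≤ N := by
    intro w
    have h2 : Q₀ * (500 * b w) < Q₀ * (N + 1) := by
      calc Q₀ * (500 * b w) = 500 * Q₀ * b w := by ring
        _ ≤ X := hbX w
        _ < _ := hXN
    have h4 := Nat.lt_of_mul_lt_mul_left h2
    omega
  have hoL : ∀ i : Fin R, V * (i : ℕ) ≤ L := fun i => le_trans (Nat.mul_le_mul_left _ i.2.le) hVL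
  have hβN : ∀ (w : Fin 4) (i : Fin R), 100 * (r + 2 * b w + V * i) ≤ N := by
    intro w i
    have h1 := hbN w
    have h2 := hoL i
    have h3 : r ≤ Q₀ := (hrQ.le).trans hQQ
    omega
  have hlt : ∀ (w w' : Fin 4) (i i' : Fin R), w < w' → r + 2 * b w + V * i ≠ r + 2 * b w' + V * i' := by
    intro w w' i i' hww heq
    refine hex w w' hww (((V * i' : ℕ) : ℤ) - ((V * i : ℕ) : ℤ)) ?_ 0 (mem_range.2 (by omega)) ?_
    · have h1 := hoL i
      have h2 := hoL i'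
      rw [mem_Icc]
      constructor <;> omega
    · have h5 : 2 * (b w' : ℤ) - 2 * b w + (((V * i' : ℕ) : ℤ) - ((V * i : ℕ) : ℤ)) = 0 := by
        have h6 : ((r + 2 * b w + V * i : ℕ) : ℤ) = ((r + 2 * b w' + V * i' : ℕ) : ℤ) := by
          exact_mod_cast heq
        push_cast at h6 ⊢
        linear_combination -h6
      rw [h5]
      exact dvd_zero _
  obtain ⟨w₁, w₂, I₁, I₂, hw, hI₁, hI₂, hcard⟩ := hN Q hQ1 hQQ
    (fun w i => ((r + 2 * b w + V * i : ℕ) : ℤ))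
    (fun w i => ⟨Nat.cast_nonneg _, by exact_mod_cast hβN w i⟩)
    (by
      rintro ⟨w, i⟩ ⟨w', i'⟩ h
      have h' : r + 2 * b w + V * i = r + 2 * b w' + V * i' := by
        have : ((r + 2 * b w + V * i : ℕ) : ℤ) = ((r + 2 * b w' + V * i' : ℕ) : ℤ) := h
        exact_mod_cast this
      rcases lt_trichotomy w w' with h1 | h1 | h1
      · exact absurd h' (hlt _ _ _ _ h1)
      · subst h1
        have h2 : V * (i : ℕ) = V * (i' : ℕ) := by omega
        have h3 := Nat.eq_of_mul_eq_mul_left (by omega) h2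
        rw [Fin.ext h3]
      · exact absurd h'.symm (hlt _ _ _ _ h1))
    hadm
  set 𝒳 := (Icc 1 N).filter (fun n : ℕ => (1 / 8 : ℝ) * N ≤ n ∧ (n : ℝ) ≤ 1 / 4 * N ∧
          (∀ i ∈ I₁, ((Q : ℤ) * n + ((r + 2 * b w₁ + V * i : ℕ) : ℤ)).toNat.Prime) ∧
          ∀ i ∈ I₂, ((Q : ℤ) * n + ((r + 2 * b w₂ + V * i : ℕ) : ℤ)).toNat.Prime) with h𝒳
  have hcomp : ∀ n ∈ 𝒳, ∀ (w : Fin 4), ∀ y ≤ L, (∀ i : Fin R, y ≠ V * i) →
      ¬ (Q * n + r + 2 * b w + y).Prime := by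
    intro n hn w y hy hyo hpr
    obtain ⟨q, hq, hqQ, hqd, hqr⟩ := hcov w y hy hyo
    have h1 : q ∣ Q * n + r + 2 * b w + y := by
      have h2 : Q * n + r + 2 * b w + y = Q * n + (r + 2 * b w + y) := by ring
      rw [h2]
      exact dvd_add (Dvd.dvd.mul_right hqd _) hqr
    have h2 := (Nat.prime_dvd_prime_iff_eq hq hpr).1 h1
    have h3 : (1 / 8 : ℝ) * N ≤ n := (mem_filter.1 hn).2.1
    have h4 : Q₀ < n := by
      have h5 : (8 : ℝ) * (Q₀ + 1) ≤ N := by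
        have : 8 * (Q₀ + 1) ≤ N := by omega
        exact_mod_cast this
      have h6 : (Q₀ : ℝ) + 1 ≤ n := by linarith
      have : Q₀ + 1 ≤ n := by exact_mod_cast h6
      omega
    have h5 : n ≤ Q * n := Nat.le_mul_of_pos_left _ hQ1
    omega
  have htoNat : ∀ (n : ℕ) (w : Fin 4) (i : Fin R), ((Q : ℤ) * n + ((r + 2 * b w + V * i : ℕ) : ℤ)).toNat =
      (Q * n + r + 2 * b w) + V * i := by
    intro n w i
    have : ((Q : ℤ) * n + ((r + 2 * b w + V * i : ℕ) : ℤ)) =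
        (((Q * n + r + 2 * b w) + V * i : ℕ) : ℤ) := by push_cast; ring
    rw [this]
    exact Int.toNat_natCast _
  obtain ⟨i₁, i₂, hpig⟩ := pigeon2 𝒳 (fun n i₁ i₂ =>
      ((Q * n + r + 2 * b w₁) + V * (i₁ : ℕ)).Prime ∧
      idx ((Q * n + r + 2 * b w₁) + V * (i₁ : ℕ)) % m = s w₁ w₂ % m ∧
      ((Q * n + r + 2 * b w₂) + V * (i₂ : ℕ)).Prime ∧
      idx ((Q * n + r + 2 * b w₂) + V * (i₂ : ℕ)) % m = s' w₁ w₂ % m) hR (by
    intro n hn
    obtain ⟨-, -, -, h1, h2⟩ := mem_filter.1 hn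
    obtain ⟨i₁, h3, h4⟩ := window (R := R) (s := s w₁ w₂) (a := Q * n + r + 2 * b w₁) hV1 hVL hm I₁ hI₁
      (fun i hi => by
        have := h1 i hi
        rwa [htoNat] at this)
      (hcomp n hn w₁)
    obtain ⟨i₂, h5, h6⟩ := window (R := R) (s := s' w₁ w₂) (a := Q * n + r + 2 * b w₂) hV1 hVL hm I₂ hI₂
      (fun i hi => by
        have := h2 i hi
        rwa [htoNat] at this)
      (hcomp n hn w₂)
    exact ⟨i₁, i₂, h3, h4, h5, h6⟩)
  refine ⟨w₁, w₂, i₁, i₂, hw, fun h hh => ?_⟩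
  have hge : ((𝒳.filter (fun n =>
      ((Q * n + r + 2 * b w₁) + V * (i₁ : ℕ)).Prime ∧
      idx ((Q * n + r + 2 * b w₁) + V * (i₁ : ℕ)) % m = s w₁ w₂ % m ∧
      ((Q * n + r + 2 * b w₂) + V * (i₂ : ℕ)).Prime ∧
      idx ((Q * n + r + 2 * b w₂) + V * (i₂ : ℕ)) % m = s' w₁ w₂ % m)).card) ≤
      cnt m (s w₁ w₂) (s' w₁ w₂) h ((X : ℝ) / ((2000 * Q₀ : ℕ) : ℝ)) X := by
    apply cnt_ge _ (fun n => (Q * n + r + 2 * b w₁) + V * (i₁ : ℕ))
    · intro n _ n' _ h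
      have h3 : (Q * n + r + 2 * b w₁) + V * (i₁ : ℕ) =
        (Q * n' + r + 2 * b w₁) + V * (i₁ : ℕ) := h
      have h4 : Q * n = Q * n' := by omega
      exact Nat.eq_of_mul_eq_mul_left (by omega) h4
    · intro n hn
      obtain ⟨hn𝒳, h3, h4, h5, h6⟩ := mem_filter.1 hn
      obtain ⟨-, h7, h8, -, -⟩ := mem_filter.1 hn𝒳
      have h9 : (Q * n + r + 2 * b w₁) + V * (i₁ : ℕ) + h =
          (Q * n + r + 2 * b w₂) + V * (i₂ : ℕ) := by
        have h10 : (((Q * n + r + 2 * b w₁) + V * (i₁ : ℕ) + h : ℕ) : ℤ) =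
          (((Q * n + r + 2 * b w₂) + V * (i₂ : ℕ) : ℕ) : ℤ) := by
          push_cast
          linear_combination hh
        exact_mod_cast h10
      have hb' := hβN w₁ i₁
      have hQr : (1 : ℝ) ≤ Q := by exact_mod_cast hQ1
      have hQQr : (Q : ℝ) ≤ Q₀ := by exact_mod_cast hQQ
      have hQ₀r : (1 : ℝ) ≤ Q₀ := by exact_mod_cast hQ₀1
      have hn0 : (0 : ℝ) ≤ n := Nat.cast_nonneg _
      refine ⟨h3, ?_, h4, ?_, ?_, ?_⟩
      · rw [h9]; exact h5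
      · rw [h9]; exact h6
      · have h10 : (X : ℝ) ≤ Q₀ * (N + 1) := by exact_mod_cast hXN.le
        have hN8 : (8 : ℝ) ≤ N := by exact_mod_cast (by omega : 8 ≤ N)
        have h11 : (X : ℝ) / ((2000 * Q₀ : ℕ) : ℝ) ≤ n := by
          rw [div_le_iff₀ (by positivity)]
          push_cast
          nlinarith
        have h12 : n ≤ Q * n + r + 2 * b w₁ + V * (i₁ : ℕ) := by
          have : n ≤ Q * n := Nat.le_mul_of_pos_left _ hQ1
          omega
        refine h11.trans ?_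
        exact_mod_cast h12
      · have h10 : ((Q * n : ℕ) : ℝ) ≤ 1 / 4 * (Q₀ * N) := by
          push_cast
          calc (Q : ℝ) * n ≤ Q₀ * (1 / 4 * N) := mul_le_mul hQQr h8 hn0 (by positivity)
            _ = _ := by ring
        have h11 : ((Q₀ * N : ℕ) : ℝ) ≤ X := by exact_mod_cast hNX
        have h12 : ((r + 2 * b w₁ + V * i₁ : ℕ) : ℝ) ≤ 1 / 50 * N := by
          have : ((100 * (r + 2 * b w₁ + V * i₁) : ℕ) : ℝ) ≤ N := by exact_mod_cast hb'
          have h0 : (0 : ℝ) ≤ ((r + 2 * b w₁ + V * i₁ : ℕ) : ℝ) := Nat.cast_nonneg _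
          push_cast at this h0 ⊢
          linarith
        have h13 : (N : ℝ) ≤ Q₀ * N := le_mul_of_one_le_left (Nat.cast_nonneg _) hQ₀r
        have h14 : ((Q * n + r + 2 * b w₁ + V * (i₁ : ℕ) : ℕ) : ℝ) =
            ((Q * n : ℕ) : ℝ) + ((r + 2 * b w₁ + V * i₁ : ℕ) : ℝ) := by
          push_cast; ring
        rw [h14]
        push_cast at h11 ⊢
        push_cast at h10 h12
        have h15 : (0 : ℝ) ≤ Q₀ * N := by positivity
        linarith
  by_contra hcon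
  push Not at hcon
  have hfin : (𝒳.card : ℝ) ≤ (R : ℝ) ^ 2 * (X : ℝ) ^ (1 - η) := by
    refine hpig.trans ?_
    apply mul_le_mul_of_nonneg_left _ (by positivity)
    refine le_trans (Nat.cast_le.2 (card_le_card ?_)) ((Nat.cast_le.2 hge).trans hcon)
    intro n hn
    simp only [Finset.mem_filter] at hn ⊢
    exact hn
  exact absurd (hcard.trans hfin) (not_le.2 hsc)

end Pool.Agent.K7.H64.IX
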