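import Pool.Agent.TH899.UG.TD2
import Pool.Agent.Y863.AA.Msz
import Pool.Agent.K7.H64.IX.Point

/-! A third of the multiples of an even number, between primes with indices in given classes. -/

set_option autoImplicit false

namespace Pool.Agent.K7.H64.IX

open Finset Filter Topology Pool.Agent.TH899.UG.TD

/-- the positions of the clusters -/
def pos (z : ℕ × ℕ × ℕ) : Fin 4 → ℕ := ![0, z.2.1, z.2.2, z.1]

theorem pos_QQ {H c : ℕ} {B : Finset ℕ} {z : ℕ × ℕ × ℕ} (hz : z ∈ QQ H B c) :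
    StrictMono (pos z) ∧ (∀ w, pos z w ≤ H) ∧ (∀ w₁ w₂ : Fin 4, w₁ < w₂ → pos z w₂ - pos z w₁ ∈ B) ∧
      ∀ w, pos z w % 3 = 0 ∨ pos z w % 3 = c := by
  unfold QQ at hz
  obtain ⟨h0, h1, h2, h3, h4, h5, h6, h7, h8, h9, h10, h11⟩ := mem_filter.1 hz
  rw [mem_product, mem_product, mem_Icc, mem_Icc, mem_Icc] at h0
  obtain ⟨⟨a1, a2⟩, ⟨a3, a4⟩, a5, a6⟩ := h0
  refine ⟨?_, ?_, ?_, ?_⟩
  · rw [Fin.strictMono_iff_lt_succ]
    intro i
    fin_cases i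
    · show 0 < z.2.1
      omega
    · exact h1
    · exact h2
  · intro w
    fin_cases w
    · exact Nat.zero_le _
    · exact a4
    · exact a6
    · exact a2
  · intro w₁ w₂ hw
    fin_cases w₁ <;> fin_cases w₂ <;> first | (exfalso; revert hw; decide) | skip
    · exact h4
    · exact h5
    · exact h3
    · exact h6
    · exact h7
    · exact h8
  · intro w
    fin_cases w
    · left; rfl
    · exact h9
    · exact h10
    · right; exact h11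

/-- the exceptional differences -/
def Exc1 (l₀ L Y b₀ : ℕ) (k : ℕ) : Prop :=
  ∃ t ∈ Icc (-(L : ℤ)) L, ∃ κ ∈ range Y, ((pl l₀ κ : ℕ) : ℤ) ∣ 2 * (b₀ : ℕ) * k + t

open Classical in
theorem card_exc1 {l₀ L Y b₀ : ℕ} (hb : 1 ≤ b₀) (h8 : 2 * b₀ ≤ l₀) (u H : ℕ) :
    (((Ioc u (u + H)).filter (fun c : ℕ => Exc1 l₀ L Y b₀ c)).card : ℝ) ≤
      (2 * L + 1) * (Y * ((H : ℝ) / l₀ + 1)) := by
  have h1 : (Ioc u (u + H)).filter (fun c : ℕ => Exc1 l₀ L Y b₀ c) ⊆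
      (Icc (-(L : ℤ)) L).biUnion (fun t : ℤ =>
        (range Y).biUnion (fun k : ℕ => (Ioc u (u + H)).filter (fun c : ℕ =>
          ((pl l₀ k : ℕ) : ℤ) ∣ 2 * b₀ * c + t))) := by
    intro c hc
    obtain ⟨h2, t, ht, k, hk, h3⟩ := mem_filter.1 hc
    rw [mem_biUnion]
    refine ⟨t, ht, ?_⟩
    rw [mem_biUnion]
    exact ⟨k, hk, mem_filter.2 ⟨h2, h3⟩⟩
  have hl0 : (0 : ℝ) < l₀ := by exact_mod_cast (by omega : 0 < l₀)
  have hH : (0 : ℝ) ≤ H := Nat.cast_nonneg _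
  have h3 : ∀ t : ℤ, ∀ k : ℕ, (((Ioc u (u + H)).filter (fun c : ℕ =>
      ((pl l₀ k : ℕ) : ℤ) ∣ 2 * b₀ * c + t)).card : ℝ) ≤ (H : ℝ) / l₀ + 1 := by
    intro t k
    have hg := pl_gt l₀ k
    refine (card_dvd (pl_prime l₀ k) hb (by omega) t u H).trans ?_
    have h4 : (l₀ : ℝ) ≤ (pl l₀ k : ℝ) := by exact_mod_cast hg.le
    have h5 : (H : ℝ) / (pl l₀ k : ℝ) ≤ (H : ℝ) / l₀ := div_le_div_of_nonneg_left hH hl0 h4
    linarith
  calc (((Ioc u (u + H)).filter (fun c : ℕ => Exc1 l₀ L Y b₀ c)).card : ℝ) ≤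
      (((Icc (-(L : ℤ)) L).biUnion (fun t : ℤ =>
        (range Y).biUnion (fun k : ℕ => (Ioc u (u + H)).filter (fun c : ℕ =>
          ((pl l₀ k : ℕ) : ℤ) ∣ 2 * b₀ * c + t)))).card : ℝ) := by exact_mod_cast card_le_card h1
    _ ≤ ∑ t ∈ Icc (-(L : ℤ)) L, ∑ k ∈ range Y, (((Ioc u (u + H)).filter (fun c : ℕ =>
          ((pl l₀ k : ℕ) : ℤ) ∣ 2 * b₀ * c + t)).card : ℝ) := by
        have e2 := card_biUnion_le (s := Icc (-(L : ℤ)) L) (t := fun t : ℤ =>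
          (range Y).biUnion (fun k : ℕ => (Ioc u (u + H)).filter (fun c : ℕ =>
          ((pl l₀ k : ℕ) : ℤ) ∣ 2 * b₀ * c + t)))
        refine (Nat.cast_le.2 e2).trans ?_
        rw [Nat.cast_sum]
        refine sum_le_sum fun t _ => ?_
        have e3 := card_biUnion_le (s := range Y) (t := fun k : ℕ => (Ioc u (u + H)).filter (fun c : ℕ =>
          ((pl l₀ k : ℕ) : ℤ) ∣ 2 * b₀ * c + t))
        refine (Nat.cast_le.2 e3).trans ?_
        rw [Nat.cast_sum]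
    _ ≤ ∑ t ∈ Icc (-(L : ℤ)) L, ∑ k ∈ range Y, ((H : ℝ) / l₀ + 1) :=
        sum_le_sum fun t _ => sum_le_sum fun k _ => h3 t k
    _ = (2 * L + 1) * (Y * ((H : ℝ) / l₀ + 1)) := by
        rw [sum_const, sum_const, nsmul_eq_mul, nsmul_eq_mul, card_range, Int.card_Icc]
        have h5 : (((L : ℤ) + 1 - -(L : ℤ)).toNat : ℝ) = 2 * L + 1 := by
          have : ((L : ℤ) + 1 - -(L : ℤ)).toNat = 2 * L + 1 := by omega
          rw [this]; push_cast; ring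
        rw [h5]

/-- digits -/
theorem digits {B x y z : ℤ} (hB : 0 < B) (hx : 2 * |x| < B) (hy : 2 * |y| < B) (hz : 2 * |z| < B)
    (h : x * B ^ 2 + y * B + z = 0) : x = 0 ∧ y = 0 ∧ z = 0 := by
  have h1 : B ∣ z := ⟨-(x * B + y), by linear_combination h⟩
  have hz0 : z = 0 := Int.eq_zero_of_abs_lt_dvd h1 (by have := abs_nonneg z; omega)
  subst hz0
  have h2 : B * (x * B + y) = 0 := by linear_combination h
  have h3 : x * B + y = 0 := by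
    rcases mul_eq_zero.1 h2 with h | h
    · omega
    · exact h
  have h4 : B ∣ y := ⟨-x, by linear_combination h3⟩
  have hy0 : y = 0 := Int.eq_zero_of_abs_lt_dvd h4 (by have := abs_nonneg y; omega)
  subst hy0
  have h5 : x * B = 0 := by linear_combination h3
  refine ⟨?_, rfl, rfl⟩
  rcases mul_eq_zero.1 h5 with h | h
  · exact h
  · omega

open Classical in
/-- homothetic copies of cubes in dense sets of quadruples, with a colour -/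
theorem cube (R W : ℕ) (hR : 1 ≤ R) (hW : 1 ≤ W) (Γ : Type) [Fintype Γ] [Nonempty Γ] (ε : ℝ) (hε : 0 < ε) :
    ∃ n : ℕ, 1 ≤ n ∧ ∀ H : ℕ, n ≤ H → ∀ (B : Finset ℕ) (c : ℕ) (γ : ℕ × ℕ × ℕ → Γ),
      ε * (H : ℝ) ^ 3 ≤ (QQ H B c).card → ∃ (z : ℕ × ℕ × ℕ) (l : ℕ) (G : Γ), z ∈ QQ H B c ∧ 1 ≤ l ∧
        l * (W * R) ≤ n ∧ ∀ t : Fin 4 → Fin R, ∃ z' ∈ QQ H B c, γ z' = G ∧
          ∀ w : Fin 4, (pos z' w : ℤ) = pos z w + l * (W * (((t w : ℕ) : ℤ) - ((t 0 : ℕ) : ℤ))) := by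
  have hΓ : (0 : ℝ) < Fintype.card Γ := by exact_mod_cast Fintype.card_pos
  have : Nonempty (Fin R) := ⟨⟨0, hR⟩⟩
  obtain ⟨n, hn, hm⟩ := Pool.Agent.Y863.AA.msz (Fin 4 → Fin R) (ε / (64 * Fintype.card Γ)) (by positivity)
  refine ⟨n * (W * R), Nat.mul_pos hn (Nat.mul_pos hW hR), fun H hH B c γ hcard => ?_⟩
  have hWR : 1 ≤ W * R := Nat.mul_pos hW hR
  have hH1 : 1 ≤ H := le_trans (Nat.mul_pos hn hWR) hH
  -- the popular colour
  obtain ⟨G, hG⟩ : ∃ G : Γ, ε / Fintype.card Γ * (H : ℝ) ^ 3 ≤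
      (((QQ H B c).filter (fun z => γ z = G)).card : ℝ) := by
    by_contra hcon
    push Not at hcon
    have h1 : (QQ H B c).card = ∑ G : Γ, ((QQ H B c).filter (fun z => γ z = G)).card :=
      card_eq_sum_card_fiberwise (fun _ _ => by simp)
    have h2 : ((QQ H B c).card : ℝ) < ∑ _G : Γ, ε / Fintype.card Γ * (H : ℝ) ^ 3 := by
      rw [h1]
      push_cast
      exact sum_lt_sum_of_nonempty univ_nonempty fun G _ => hcon G
    rw [sum_const, nsmul_eq_mul, card_univ] at h2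
    have h3 : (Fintype.card Γ : ℝ) * (ε / Fintype.card Γ * (H : ℝ) ^ 3) = ε * (H : ℝ) ^ 3 := by
      field_simp
    linarith
  set E := (QQ H B c).filter (fun z => γ z = G) with hE
  obtain ⟨M, hM⟩ : ∃ M : ℕ, M = 4 * H := ⟨_, rfl⟩
  obtain ⟨φ, hφ⟩ : ∃ φ : ℕ × ℕ × ℕ → ℕ, φ = fun z => z.1 * M ^ 2 + z.2.1 * M + z.2.2 := ⟨_, rfl⟩
  have hEb : ∀ z ∈ E, 1 ≤ z.1 ∧ z.1 ≤ H ∧ 1 ≤ z.2.1 ∧ z.2.1 ≤ H ∧ 1 ≤ z.2.2 ∧ z.2.2 ≤ H := by
    intro z hz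
    have h1 := (mem_filter.1 hz).1
    unfold QQ at h1
    have h0 := (mem_filter.1 h1).1
    rw [mem_product, mem_product, mem_Icc, mem_Icc, mem_Icc] at h0
    exact ⟨h0.1.1, h0.1.2, h0.2.1.1, h0.2.1.2, h0.2.2.1, h0.2.2.2⟩
  have hMz : (0 : ℤ) < M := by
    have : 0 < M := by omega
    exact_mod_cast this
  have hφeq : ∀ z z' : ℕ × ℕ × ℕ, ∀ a₁ a₂ a₃ : ℤ, z ∈ E → z' ∈ E → |a₁| ≤ H → |a₂| ≤ H → |a₃| ≤ H →
      (φ z' : ℤ) = φ z + (a₁ * M ^ 2 + a₂ * M + a₃) →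
      (z'.1 : ℤ) = z.1 + a₁ ∧ (z'.2.1 : ℤ) = z.2.1 + a₂ ∧ (z'.2.2 : ℤ) = z.2.2 + a₃ := by
    intro z z' a₁ a₂ a₃ hz hz' h1 h2 h3 h
    obtain ⟨b1, b2, b3, b4, b5, b6⟩ := hEb z hz
    obtain ⟨c1, c2, c3, c4, c5, c6⟩ := hEb z' hz'
    rw [abs_le] at h1 h2 h3
    have h4 := digits (B := (M : ℤ)) (x := (z'.1 : ℤ) - z.1 - a₁) (y := (z'.2.1 : ℤ) - z.2.1 - a₂)
      (z := (z'.2.2 : ℤ) - z.2.2 - a₃) hMz
      (by
        have : |(z'.1 : ℤ) - z.1 - a₁| ≤ 2 * H - 1 := by rw [abs_le]; constructor <;> omega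
        omega)
      (by
        have : |(z'.2.1 : ℤ) - z.2.1 - a₂| ≤ 2 * H - 1 := by rw [abs_le]; constructor <;> omega
        omega)
      (by
        have : |(z'.2.2 : ℤ) - z.2.2 - a₃| ≤ 2 * H - 1 := by rw [abs_le]; constructor <;> omega
        omega)
      (by
        rw [hφ] at h
        push_cast at h
        linear_combination h)
    obtain ⟨h5, h6, h7⟩ := h4
    refine ⟨by linarith, by linarith, by linarith⟩
  have hφinj : Set.InjOn φ E := by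
    intro z hz z' hz' h
    obtain ⟨h1, h2, h3⟩ := hφeq z z' 0 0 0 hz hz' (by simp) (by simp) (by simp) (by
      have : (φ z : ℤ) = φ z' := by exact_mod_cast h
      rw [this]; ring)
    have e1 : z'.1 = z.1 := by
      rw [add_zero] at h1
      exact_mod_cast h1
    have e2 : z'.2.1 = z.2.1 := by
      rw [add_zero] at h2
      exact_mod_cast h2
    have e3 : z'.2.2 = z.2.2 := by
      rw [add_zero] at h3
      exact_mod_cast h3
    exact (Prod.ext e1 (Prod.ext e2 e3)).symm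
  obtain ⟨x, l, hl1, hln, hx⟩ := hm
    (fun t => (W : ℤ) * ((((t 3 : ℕ) : ℤ) - ((t 0 : ℕ) : ℤ)) * M ^ 2 +
      (((t 1 : ℕ) : ℤ) - ((t 0 : ℕ) : ℤ)) * M + (((t 2 : ℕ) : ℤ) - ((t 0 : ℕ) : ℤ))))
    (W * (R * (3 * M ^ 2))) (by
      intro t
      have hd : ∀ i j : Fin 4, |((t i : ℕ) : ℤ) - ((t j : ℕ) : ℤ)| ≤ R := by
        intro i j
        have a1 := (t i).2
        have a2 := (t j).2
        rw [abs_le]
        constructor <;> omega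
      have hM1 : (1 : ℤ) ≤ M := by omega
      rw [abs_mul, abs_of_nonneg (Nat.cast_nonneg W)]
      push_cast
      apply mul_le_mul_of_nonneg_left _ (Nat.cast_nonneg _)
      have e1 : |(((t 3 : ℕ) : ℤ) - ((t 0 : ℕ) : ℤ)) * (M : ℤ) ^ 2| ≤ R * (M : ℤ) ^ 2 := by
        rw [abs_mul, abs_of_nonneg (by positivity : (0 : ℤ) ≤ (M : ℤ) ^ 2)]
        exact mul_le_mul_of_nonneg_right (hd 3 0) (by positivity)
      have e2 : |(((t 1 : ℕ) : ℤ) - ((t 0 : ℕ) : ℤ)) * (M : ℤ)| ≤ R * (M : ℤ) ^ 2 := by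
        rw [abs_mul, abs_of_nonneg hMz.le]
        have : (M : ℤ) ≤ (M : ℤ) ^ 2 := by nlinarith
        exact mul_le_mul (hd 1 0) this hMz.le (Nat.cast_nonneg _)
      have e3 : |((t 2 : ℕ) : ℤ) - ((t 0 : ℕ) : ℤ)| ≤ R * (M : ℤ) ^ 2 := by
        have h1 : (1 : ℤ) ≤ (M : ℤ) ^ 2 := by nlinarith
        have h2 : (R : ℤ) * 1 ≤ R * (M : ℤ) ^ 2 := mul_le_mul_of_nonneg_left h1 (Nat.cast_nonneg _)
        have := hd 2 0
        linarith
      calc _ ≤ |(((t 3 : ℕ) : ℤ) - ((t 0 : ℕ) : ℤ)) * (M : ℤ) ^ 2 +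
            (((t 1 : ℕ) : ℤ) - ((t 0 : ℕ) : ℤ)) * (M : ℤ)| +
            |((t 2 : ℕ) : ℤ) - ((t 0 : ℕ) : ℤ)| := abs_add_le _ _
        _ ≤ |(((t 3 : ℕ) : ℤ) - ((t 0 : ℕ) : ℤ)) * (M : ℤ) ^ 2| +
            |(((t 1 : ℕ) : ℤ) - ((t 0 : ℕ) : ℤ)) * (M : ℤ)| +
            |((t 2 : ℕ) : ℤ) - ((t 0 : ℕ) : ℤ)| := by
              have := abs_add_le ((((t 3 : ℕ) : ℤ) - ((t 0 : ℕ) : ℤ)) * (M : ℤ) ^ 2)
                ((((t 1 : ℕ) : ℤ) - ((t 0 : ℕ) : ℤ)) * (M : ℤ))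
              linarith
        _ ≤ R * (3 * (M : ℤ) ^ 2) := by linarith)
    (M ^ 3) (by
      have h1 : 3 * (n * (W * R)) ≤ M := by omega
      calc n * (W * (R * (3 * M ^ 2))) = (3 * (n * (W * R))) * M ^ 2 := by ring
        _ ≤ M * M ^ 2 := Nat.mul_le_mul_right _ h1
        _ = M ^ 3 := by ring) (Nat.one_le_pow _ _ (by omega))
    (E.image φ) (by
      intro k hk
      obtain ⟨z, hz, rfl⟩ := mem_image.1 hk
      obtain ⟨b1, b2, b3, b4, b5, b6⟩ := hEb z hz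
      rw [mem_Ioc, hφ]
      simp only
      have hM1 : 1 ≤ M := by omega
      refine ⟨by omega, ?_⟩
      have e1 : z.1 * M ^ 2 ≤ H * M ^ 2 := Nat.mul_le_mul_right _ b2
      have e2 : z.2.1 * M ≤ H * M ^ 2 := Nat.mul_le_mul b4 (by nlinarith)
      have e3 : z.2.2 ≤ H * M ^ 2 := by
        have : H * 1 ≤ H * M ^ 2 := Nat.mul_le_mul_left _ (Nat.one_le_pow _ _ hM1)
        omega
      have e4 : M ^ 3 = 4 * (H * M ^ 2) := by rw [hM]; ring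
      omega)
    (by
      rw [card_image_of_injOn hφinj]
      refine le_trans (le_of_eq ?_) hG
      rw [hM]
      push_cast
      field_simp
      ring)
  -- the base point
  obtain ⟨k₀, hk₀, hxk₀⟩ := hx (fun _ => ⟨0, hR⟩)
  obtain ⟨z, hz, hzk⟩ := mem_image.1 hk₀
  have hxz : x = (φ z : ℤ) := by
    rw [hzk, ← hxk₀]
    simp
  have hlWR : l * (W * R) ≤ n * (W * R) := Nat.mul_le_mul_right _ hln
  refine ⟨z, l, G, (mem_filter.1 hz).1, hl1, hlWR, fun t => ?_⟩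
  obtain ⟨k, hk, hxk⟩ := hx t
  obtain ⟨z', hz', hz'k⟩ := mem_image.1 hk
  have hb : ∀ i : Fin 4, |(l : ℤ) * (W * (((t i : ℕ) : ℤ) - ((t 0 : ℕ) : ℤ)))| ≤ H := by
    intro i
    have a1 := (t i).2
    have a2 := (t 0).2
    have h1 : |((t i : ℕ) : ℤ) - ((t 0 : ℕ) : ℤ)| ≤ R := by
      rw [abs_le]
      constructor <;> omega
    rw [abs_mul, abs_mul, abs_of_nonneg (Nat.cast_nonneg l), abs_of_nonneg (Nat.cast_nonneg W)]
    calc (l : ℤ) * (W * |((t i : ℕ) : ℤ) - ((t 0 : ℕ) : ℤ)|) ≤ l * (W * R) := by gcongr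
      _ ≤ H := by exact_mod_cast hlWR.trans hH
  obtain ⟨h1, h2, h3⟩ := hφeq z z' _ _ _ hz hz' (hb 3) (hb 1) (hb 2) (by
    rw [hz'k, ← hxk, hxz]
    ring)
  refine ⟨z', (mem_filter.1 hz').1, (mem_filter.1 hz').2, fun w => ?_⟩
  fin_cases w
  · show ((0 : ℕ) : ℤ) = ((0 : ℕ) : ℤ) + l * (W * (((t 0 : ℕ) : ℤ) - ((t 0 : ℕ) : ℤ)))
    simp
  · exact h2
  · exact h3
  · exact h1

end Pool.Agent.K7.H64.IX
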