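import Pool.Agent.K7.H64.IX.Third

/-! A third of the multiples of an even number, between primes with indices in given classes. -/

set_option autoImplicit false

namespace Pool.Agent.K7.H64.IX

open Finset Filter Topology Pool.Agent.TH899.UG.TD

theorem cnt_mono {m s s' h : ℕ} {y y' x : ℝ} (hy : y' ≤ y) : cnt m s s' h y x ≤ cnt m s s' h y' x := by
  unfold cnt
  refine Set.ncard_le_ncard ?_ (cnt_fin m s s' h y' x)
  rintro k ⟨h1, h2, h3, h4, h5, h6⟩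
  exact ⟨h1, h2, h3, h4, hy.trans h5, h6⟩

open Classical in
theorem third (m : ℕ) (hm : 1 ≤ m) (b₀ : ℕ) (hb₀ : 1 ≤ b₀) (ε : ℝ) (hε : 0 < ε) : ∃ C : ℕ, 1 ≤ C ∧
    ∀ η : ℝ, 0 < η → η ≤ 1 → ∀ᶠ X : ℕ in atTop, ∀ H : ℕ, C ≤ H → C * H ≤ X →
      (1 / 3 - ε) * (H : ℝ) ≤ (((Icc 1 H).filter (fun k : ℕ => ∀ s s' : Fin m,
        (X : ℝ) ^ (1 - η) ≤ (cnt m s s' (2 * b₀ * k) ((X : ℝ) / C) X : ℝ))).card : ℝ) := by
  obtain ⟨R, hR, hpt⟩ := point m hm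
  have : Nonempty (Fin R) := ⟨⟨0, hR⟩⟩
  have : Nonempty (Fin m) := ⟨⟨0, hm⟩⟩
  obtain ⟨W, hWd⟩ : ∃ W : ℕ, W = (4 * R).factorial := ⟨_, rfl⟩
  have hW1 : 1 ≤ W := by rw [hWd]; exact Nat.succ_le_of_lt (Nat.factorial_pos _)
  have hW : ∀ p : ℕ, p.Prime → p ≤ 4 * R → p ∣ W := fun p hp hpR => by
    rw [hWd]; exact Nat.dvd_factorial hp.pos hpR
  obtain ⟨n, hn, hcube⟩ := cube R W hR hW1 (Fin 4 × Fin 4 → Fin m × Fin m) ((ε / 40) ^ 3) (by positivity)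
  obtain ⟨L, hL⟩ : ∃ L : ℕ, L = 2 * b₀ * n := ⟨_, rfl⟩
  obtain ⟨D, hD⟩ : ∃ D : ℝ, D = (2 * L + 1) * ((4 * (L + 1) : ℕ) : ℝ) := ⟨_, rfl⟩
  have hD0 : 0 < D := by rw [hD]; positivity
  obtain ⟨K, hK⟩ := exists_nat_ge (4 * D / ε)
  obtain ⟨K', hK'⟩ := exists_nat_ge (1000 / ε)
  obtain ⟨l₀, hl₀⟩ : ∃ l₀ : ℕ, l₀ = L + 2 * b₀ + K := ⟨_, rfl⟩
  obtain ⟨Q₀, hQ₀⟩ : ∃ Q₀ : ℕ, Q₀ = ∏ k ∈ range (4 * (L + 1)), pl l₀ k := ⟨_, rfl⟩
  have hQ₀1 : 1 ≤ Q₀ := by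
    rw [hQ₀]; exact Nat.succ_le_of_lt (prod_pos fun k _ => (pl_prime l₀ k).pos)
  have hQb : 1 ≤ Q₀ * b₀ := Nat.mul_pos hQ₀1 hb₀
  have hQQb : Q₀ ≤ Q₀ * b₀ := Nat.le_mul_of_pos_right _ hb₀
  obtain ⟨C, hC⟩ : ∃ C : ℕ, C = K + K' + n + 2000 * (Q₀ * b₀) := ⟨_, rfl⟩
  refine ⟨C, by omega, fun η hη hη1 => ?_⟩
  filter_upwards [hpt L l₀ (by omega) Q₀ hQ₀ η hη hη1, eventually_ge_atTop 1] with X hX hX1 H hH hCX
  by_contra hcon
  push Not at hcon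
  set Gd := (Icc 1 H).filter (fun k : ℕ => ∀ s s' : Fin m,
        (X : ℝ) ^ (1 - η) ≤ (cnt m s s' (2 * b₀ * k) ((X : ℝ) / C) X : ℝ)) with hGd
  set Bad := (Icc 1 H).filter (fun k : ℕ => ¬ ∀ s s' : Fin m,
        (X : ℝ) ^ (1 - η) ≤ (cnt m s s' (2 * b₀ * k) ((X : ℝ) / C) X : ℝ)) with hBad
  set Bad' := Bad.filter (fun k => ¬ Exc1 l₀ L (4 * (L + 1)) b₀ k) with hBad'
  have hsum : (Gd.card : ℝ) + Bad.card = H := by
    have := card_filter_add_card_filter_not (s := Icc 1 H) (fun k : ℕ => ∀ s s' : Fin m,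
        (X : ℝ) ^ (1 - η) ≤ (cnt m s s' (2 * b₀ * k) ((X : ℝ) / C) X : ℝ))
    rw [Nat.card_Icc, Nat.add_sub_cancel] at this
    exact_mod_cast this
  have hHK : (K : ℝ) ≤ H := by exact_mod_cast (by omega : K ≤ H)
  have hHK' : (K' : ℝ) ≤ H := by exact_mod_cast (by omega : K' ≤ H)
  have hH0 : (0 : ℝ) ≤ H := Nat.cast_nonneg _
  have hexc : (((Ioc 0 (0 + H)).filter (fun c : ℕ => Exc1 l₀ L (4 * (L + 1)) b₀ c)).card : ℝ) ≤ ε / 2 * H := by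
    refine (card_exc1 (l₀ := l₀) (L := L) (Y := 4 * (L + 1)) hb₀ (by omega) 0 H).trans ?_
    have h1 : (2 * (L : ℝ) + 1) * (((4 * (L + 1) : ℕ) : ℝ) * ((H : ℝ) / l₀ + 1)) =
        D * (H / l₀ + 1) := by rw [hD]; ring
    rw [h1]
    have hl0 : (0 : ℝ) < l₀ := by exact_mod_cast (by omega : 0 < l₀)
    have hKl : (K : ℝ) ≤ l₀ := by exact_mod_cast (by omega : K ≤ l₀)
    have h2 : D ≤ ε / 4 * l₀ := by
      have h3 : 4 * D / ε ≤ l₀ := hK.trans hKl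
      rw [div_le_iff₀ hε] at h3
      linarith
    have h3 : D ≤ ε / 4 * H := by
      have h3 : 4 * D / ε ≤ H := hK.trans hHK
      rw [div_le_iff₀ hε] at h3
      linarith
    have h4 : D * ((H : ℝ) / l₀) ≤ ε / 4 * H := by
      calc D * ((H : ℝ) / l₀) ≤ (ε / 4 * l₀) * ((H : ℝ) / l₀) :=
            mul_le_mul_of_nonneg_right h2 (by positivity)
        _ = ε / 4 * H := by field_simp
    linarith
  have hBad'card : (2 / 3 + ε / 2) * H < (Bad'.card : ℝ) := by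
    have h1 : Bad ⊆ Bad' ∪ (Ioc 0 (0 + H)).filter (fun c : ℕ => Exc1 l₀ L (4 * (L + 1)) b₀ c) := by
      intro c hc
      rw [mem_union]
      by_cases h : Exc1 l₀ L (4 * (L + 1)) b₀ c
      · have := mem_Icc.1 (mem_filter.1 hc).1
        exact Or.inr (mem_filter.2 ⟨mem_Ioc.2 ⟨by omega, by omega⟩, h⟩)
      · exact Or.inl (mem_filter.2 ⟨hc, h⟩)
    have h2 : (Bad.card : ℝ) ≤ Bad'.card +
        ((Ioc 0 (0 + H)).filter (fun c : ℕ => Exc1 l₀ L (4 * (L + 1)) b₀ c)).card := by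
      exact_mod_cast (card_le_card h1).trans (card_union_le _ _)
    linarith
  -- many quadruples
  obtain ⟨R₁, hR₁⟩ : ∃ R₁ : ℕ, R₁ = ⌊ε * H / 20⌋₊ := ⟨_, rfl⟩
  have hεH : 1000 ≤ ε * H := by
    have h1 : 1000 / ε ≤ H := hK'.trans hHK'
    rw [div_le_iff₀ hε] at h1
    linarith
  have hR₁u : (R₁ : ℝ) ≤ ε * H / 20 := by rw [hR₁]; exact Nat.floor_le (by positivity)
  have hR₁l : ε * H / 40 ≤ R₁ := by
    have : ε * H / 20 - 1 < R₁ := by rw [hR₁]; exact Nat.sub_one_lt_floor _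
    linarith
  have hR₁1 : 1 ≤ R₁ := by
    have : (1 : ℝ) ≤ R₁ := by linarith
    exact_mod_cast this
  obtain ⟨c, hc, hquad⟩ := quad H R₁ R₁ hR₁1 Bad' (by
    intro k hk
    exact (mem_filter.1 (mem_filter.1 hk).1).1) (by
    have h1 : ((2 * H + 9 * R₁ + 3 * R₁ + 20 : ℕ) : ℝ) ≤ ((3 * Bad'.card : ℕ) : ℝ) := by
      push_cast
      linarith
    exact_mod_cast h1)
  have hmany : (ε / 40) ^ 3 * (H : ℝ) ^ 3 ≤ ((QQ H Bad' c).card : ℝ) := by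
    have h1 : ((R₁ * (R₁ * R₁) : ℕ) : ℝ) ≤ ((QQ H Bad' c).card : ℝ) := by exact_mod_cast hquad
    refine le_trans ?_ h1
    push_cast
    have h2 : (ε * H / 40) ^ 3 ≤ (R₁ : ℝ) ^ 3 := pow_le_pow_left₀ (by positivity) hR₁l 3
    calc (ε / 40) ^ 3 * (H : ℝ) ^ 3 = (ε * H / 40) ^ 3 := by ring
      _ ≤ (R₁ : ℝ) ^ 3 := h2
      _ = _ := by ring
  -- the colours
  have hcol : ∀ k : ℕ, ∃ f : Fin m × Fin m, k ∈ Bad →
      (cnt m f.1 f.2 (2 * b₀ * k) ((X : ℝ) / C) X : ℝ) < (X : ℝ) ^ (1 - η) := by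
    intro k
    by_cases hk : k ∈ Bad
    · have h1 := (mem_filter.1 hk).2
      push Not at h1
      obtain ⟨s, s', h2⟩ := h1
      exact ⟨(s, s'), fun _ => h2⟩
    · exact ⟨Classical.arbitrary _, fun h => absurd h hk⟩
  choose γ' hγ' using hcol
  obtain ⟨z, l, G, hz, hl1, hln, hcopy⟩ := hcube H (by omega) Bad' c
    (fun z w => γ' (pos z w.2 - pos z w.1)) hmany
  obtain ⟨hzm, hzH, hzB, hz3⟩ := pos_QQ hz
  have hlW : 1 ≤ l * W := Nat.mul_pos hl1 hW1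
  obtain ⟨b, hb⟩ : ∃ b : Fin 4 → ℕ, b = fun w => b₀ * pos z w := ⟨_, rfl⟩
  obtain ⟨w₁, w₂, i₁, i₂, hw, hh⟩ := hX (2 * b₀ * (l * W)) b
    (Nat.mul_pos (by omega) hlW)
    (fun p hp hpR => Dvd.dvd.mul_left (Dvd.dvd.mul_left (hW p hp hpR) _) _)
    (by
      rw [hL]
      calc 2 * b₀ * (l * W) * R = 2 * b₀ * (l * (W * R)) := by ring
        _ ≤ 2 * b₀ * n := Nat.mul_le_mul_left _ hln)
    (by
      rw [hb]
      intro w w' hww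
      exact Nat.mul_lt_mul_of_pos_left (hzm hww) hb₀)
    (fun w => by
      rw [hb]
      simp only
      have h1 : b₀ * pos z w ≤ b₀ * H := Nat.mul_le_mul_left _ (hzH w)
      calc 500 * Q₀ * (b₀ * pos z w) ≤ 500 * Q₀ * (b₀ * H) := Nat.mul_le_mul_left _ h1
        _ = (500 * (Q₀ * b₀)) * H := by ring
        _ ≤ C * H := Nat.mul_le_mul_right _ (by omega)
        _ ≤ X := hCX)
    (fun w w' hww t ht k hk hd => by
      have h1 := hzB w w' hww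
      obtain ⟨-, h2⟩ := mem_filter.1 h1
      apply h2
      refine ⟨t, ht, k, hk, ?_⟩
      have h3 : 2 * (b w' : ℤ) - 2 * b w + t = 2 * (b₀ : ℕ) * ((pos z w' - pos z w : ℕ) : ℤ) + t := by
        rw [hb, Nat.cast_sub (hzm hww).le]
        push_cast
        ring
      rwa [h3] at hd)
    (by
      obtain ⟨z₃, hz₃⟩ := exists_avoid (p := 3) (by norm_num) (show Fintype.card (Fin 2) < 3 by simp)
        (fun i : Fin 2 => if i = 0 then (0 : ℤ) else 2 * b₀ * c)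
      refine ⟨z₃, fun w hd => ?_⟩
      have h0 := hz₃ 0
      have h1 := hz₃ 1
      simp only [if_true] at h0
      rw [if_neg (by decide)] at h1
      have h2 : pos z w = 3 * (pos z w / 3) + pos z w % 3 := (Nat.div_add_mod _ _).symm
      have h4 : ((2 * b w : ℕ) : ℤ) = 3 * (2 * b₀ * (pos z w / 3 : ℕ)) + 2 * b₀ * ((pos z w % 3 : ℕ) : ℤ) := by
        rw [hb]
        simp only
        have h5 : ((pos z w : ℕ) : ℤ) = 3 * ((pos z w / 3 : ℕ) : ℤ) + ((pos z w % 3 : ℕ) : ℤ) := by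
          exact_mod_cast h2
        push_cast
        rw [Nat.cast_mul] at *
        push_cast at h5
        linear_combination (2 * (b₀ : ℤ)) * h5
      rw [h4] at hd
      have h6 : ((3 : ℕ) : ℤ) ∣ z₃ + 2 * b₀ * ((pos z w % 3 : ℕ) : ℤ) := by
        have h7 := dvd_sub hd (Dvd.intro (2 * (b₀ : ℤ) * ((pos z w / 3 : ℕ) : ℤ)) (rfl : (3 : ℤ) * _ = _))
        have h8 : z₃ + (3 * (2 * (b₀ : ℤ) * ((pos z w / 3 : ℕ) : ℤ)) + 2 * b₀ * ((pos z w % 3 : ℕ) : ℤ)) -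
            3 * (2 * (b₀ : ℤ) * ((pos z w / 3 : ℕ) : ℤ)) = z₃ + 2 * b₀ * ((pos z w % 3 : ℕ) : ℤ) := by ring
        rw [h8] at h7
        exact_mod_cast h7
      rcases hz3 w with h9 | h9
      · rw [h9] at h6
        apply h0
        simpa using h6
      · rw [h9] at h6
        exact h1 h6)
    (fun w w' => ((G (w, w')).1 : ℕ)) (fun w w' => ((G (w, w')).2 : ℕ))
  obtain ⟨z', hz', hG', hpos'⟩ := hcopy (fun w => if w = w₁ then i₁ else if w = w₂ then i₂ else ⟨0, hR⟩)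
  obtain ⟨hzm', hzH', hzB', hz3'⟩ := pos_QQ hz'
  have hk' := hzB' w₁ w₂ hw
  obtain ⟨hk'Bad, -⟩ := mem_filter.1 hk'
  have hfew := hγ' _ hk'Bad
  have hGG : γ' (pos z' w₂ - pos z' w₁) = G (w₁, w₂) := congrFun hG' (w₁, w₂)
  rw [hGG] at hfew
  have hp1 := hpos' w₁
  have hp2 := hpos' w₂
  rw [if_pos rfl] at hp1
  rw [if_neg hw.ne', if_pos rfl] at hp2
  have hmany' := hh (2 * b₀ * (pos z' w₂ - pos z' w₁)) (by
    rw [hb]
    push_cast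
    rw [Nat.cast_sub (hzm' hw).le, hp1, hp2]
    push_cast
    ring)
  have hCr : (0 : ℝ) < C := by exact_mod_cast (by omega : 0 < C)
  have hmono : cnt m ((G (w₁, w₂)).1 : ℕ) ((G (w₁, w₂)).2 : ℕ) (2 * b₀ * (pos z' w₂ - pos z' w₁))
      ((X : ℝ) / ((2000 * Q₀ : ℕ) : ℝ)) X ≤ cnt m ((G (w₁, w₂)).1 : ℕ) ((G (w₁, w₂)).2 : ℕ)
      (2 * b₀ * (pos z' w₂ - pos z' w₁)) ((X : ℝ) / C) X := by
    apply cnt_mono
    apply div_le_div_of_nonneg_left (Nat.cast_nonneg _) (by positivity)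
    exact_mod_cast (by omega : 2000 * Q₀ ≤ C)
  have hmono' : (cnt m ((G (w₁, w₂)).1 : ℕ) ((G (w₁, w₂)).2 : ℕ) (2 * b₀ * (pos z' w₂ - pos z' w₁))
      ((X : ℝ) / ((2000 * Q₀ : ℕ) : ℝ)) X : ℝ) ≤ cnt m ((G (w₁, w₂)).1 : ℕ) ((G (w₁, w₂)).2 : ℕ)
      (2 * b₀ * (pos z' w₂ - pos z' w₁)) ((X : ℝ) / C) X := by exact_mod_cast hmono
  linarith

end Pool.Agent.K7.H64.IX
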